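import Pool.Agent.Helper54K9.AllSym.Upper

/-!
# The nine affine points over the field with three elements have the 5-all-symbol batch property
-/

set_option autoImplicit false
set_option maxRecDepth 20000

namespace Pool.Agent.Helper54K9.AllSym

open Finset

/-- recovery sets of the columns of `G9`: pairs of a bit mask and the ternary digits of the
coefficients -/
def sets9 : List (List (ℕ × ℕ)) :=
  [[(1, 1), (6, 24), (72, 1512), (272, 13284), (160, 4860), (26, 192), (42, 300), (138, 2220), (50, 570), (82, 816), (290, 6810), (194, 5106), (322, 8022), (386, 15312), (28, 144), (44, 522), (268, 6606), (52, 414), (148, 2286), (100, 990), (196, 3654), (324, 13860), (388, 10944), (152, 4482), (296, 13392), (392, 8802), (112, 1782), (208, 3078), (352, 7776)],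
   [(2, 3), (5, 20), (264, 13176), (144, 4536), (96, 1944), (25, 136), (41, 514), (137, 2216), (49, 406), (81, 812), (289, 6806), (193, 3646), (321, 13852), (385, 10936), (28, 198), (44, 306), (76, 774), (52, 576), (276, 6660), (164, 2448), (196, 5112), (324, 8028), (388, 15318), (88, 1566), (168, 4644), (200, 2970), (304, 13446), (336, 7452), (416, 9234)],
   [(4, 9), (3, 8), (136, 4428), (80, 1620), (288, 13608), (25, 190), (41, 298), (265, 6590), (49, 568), (145, 2270), (97, 974), (193, 5104), (321, 8020), (385, 15310), (26, 138), (42, 516), (74, 762), (50, 408), (274, 6648), (162, 2436), (194, 3648), (322, 13854), (386, 10938), (280, 13230), (104, 1728), (328, 7344), (176, 4698), (400, 8910), (224, 3402)],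
   [(8, 27), (65, 1460), (258, 13128), (132, 4392), (48, 648), (19, 88), (35, 248), (131, 4378), (21, 92), (37, 262), (261, 13132), (145, 2350), (289, 7048), (385, 8750), (22, 102), (38, 258), (70, 1470), (82, 894), (162, 2676), (194, 2922), (276, 6732), (100, 1224), (324, 7308), (208, 5184), (336, 8100), (400, 15390), (224, 3888), (352, 14094), (416, 11178)],
   [(16, 81), (257, 13124), (130, 4380), (68, 1476), (40, 540), (11, 32), (35, 250), (67, 1462), (13, 46), (37, 254), (133, 4384), (137, 2242), (97, 1216), (193, 2918), (14, 42), (38, 264), (262, 13134), (74, 786), (290, 7050), (322, 7296), (268, 6624), (164, 2682), (388, 8766), (200, 3672), (328, 13878), (392, 10962), (224, 5346), (352, 8262), (416, 15552)],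
   [(32, 243), (129, 4376), (66, 1464), (260, 13140), (24, 216), (11, 34), (19, 86), (259, 13126), (13, 38), (21, 100), (69, 1468), (265, 6616), (81, 892), (321, 7292), (14, 48), (22, 96), (134, 4386), (138, 2244), (274, 6726), (386, 8754), (76, 792), (148, 2358), (196, 2934), (200, 5130), (328, 8046), (392, 15336), (208, 3726), (336, 13932), (400, 11016)],
   [(64, 729), (9, 56), (34, 492), (20, 180), (384, 17496), (19, 166), (131, 2194), (259, 6566), (37, 496), (133, 2198), (261, 6580), (49, 326), (145, 4456), (289, 13366), (14, 66), (134, 2208), (262, 6576), (26, 114), (138, 4404), (274, 13206), (44, 288), (268, 13158), (164, 4626), (152, 2376), (280, 6696), (168, 2484), (296, 7074), (176, 2754), (304, 6966)],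
   [(128, 2187), (33, 488), (18, 168), (12, 72), (320, 14580), (11, 58), (67, 734), (259, 6568), (21, 172), (69, 748), (261, 6572), (25, 110), (265, 13150), (81, 1540), (38, 498), (70, 744), (262, 6582), (42, 276), (74, 1488), (290, 13368), (52, 342), (276, 13212), (100, 1710), (88, 864), (280, 6750), (104, 1242), (296, 6858), (112, 1134), (304, 7128)],
   [(256, 6561), (17, 164), (10, 60), (36, 504), (192, 5832), (35, 490), (67, 736), (131, 2192), (13, 64), (69, 740), (133, 2206), (41, 272), (137, 4402), (97, 1702), (22, 174), (70, 750), (134, 2202), (50, 330), (82, 1542), (162, 4620), (28, 126), (76, 1494), (148, 4464), (88, 918), (152, 2322), (104, 1026), (168, 2700), (112, 1296), (176, 2592)]]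

/-- ternary digit -/
def dig (c j : ℕ) : ZMod 3 := ((c / 3 ^ j % 3 : ℕ) : ZMod 3)

/-- check of a coefficient vector for a matrix with three rows -/
def chk {n : ℕ} (G : Matrix (Fin 3) (Fin n) (ZMod 3)) (v : Fin n) (mc : ℕ × ℕ) : Bool :=
  (decide (∀ j : Fin n, Nat.testBit mc.1 j.val = true ∨ dig mc.2 j.val = 0)) &&
    decide (∀ i : Fin 3, ∑ j, dig mc.2 j.val * G i j = G i v)

theorem chk_spec {n : ℕ} {G : Matrix (Fin 3) (Fin n) (ZMod 3)} {v : Fin n} {mc : ℕ × ℕ}
    (h : chk G v mc = true) : IsRecoverySet G (bits n mc.1) (G.col v) := by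
  unfold chk at h
  rw [Bool.and_eq_true, decide_eq_true_eq, decide_eq_true_eq] at h
  refine mem_span_of_coeff G _ _ (fun j => dig mc.2 j.val) ?_ ?_
  · intro j hj
    rcases h.1 j with h1 | h1
    · exfalso
      apply hj
      unfold bits
      rw [Finset.mem_filter]
      exact ⟨mem_univ _, h1⟩
    · exact h1
  · intro i
    exact h.2 i

/-- the masks for the column `v` -/
def masks (S : List (List (ℕ × ℕ))) (v : ℕ) : List ℕ := (S.getD v []).map Prod.fst

theorem serves_of_solve {n t : ℕ} {G : Matrix (Fin 3) (Fin n) (ZMod 3)} {S : List (List (ℕ × ℕ))}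
    (hS : ∀ v : Fin n, ∀ mc ∈ S.getD v.val [], chk G v mc = true) (f : Fin t → Fin n)
    (h : solve (masks S) (List.ofFn fun a => (f a).val) 0 = true) :
    Serves G (fun a => G.col (f a)) := by
  obtain ⟨M, h1, _, h3⟩ := solve_spec _ _ h
  have hl : (List.ofFn fun a => (f a).val).length = t := List.length_ofFn
  refine ⟨fun a => bits n (M (Fin.cast hl.symm a)), ?_, ?_⟩
  · intro a b hab
    apply bits_disjoint
    apply h3
    intro h
    apply hab
    exact (Fin.cast_injective hl.symm) h
  · intro a
    have h4 := h1 (Fin.cast hl.symm a)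
    rw [List.get_ofFn] at h4
    unfold masks at h4
    rw [List.mem_map] at h4
    obtain ⟨mc, hmc, he⟩ := h4
    have h5 := chk_spec (hS (f a) mc hmc)
    rw [he] at h5
    exact h5

theorem sets9_ok : ∀ v : Fin 9, ∀ mc ∈ sets9.getD v.val [], chk G9 v mc = true := by
  decide +kernel

theorem solve9 : ∀ a b : Fin 9, a ≤ b → ∀ c : Fin 9, b ≤ c → ∀ d : Fin 9, c ≤ d → ∀ e : Fin 9,
    d ≤ e → solve (masks sets9) [a.val, b.val, c.val, d.val, e.val] 0 = true := by
  decide +kernel

theorem batch9 : AllSymbolBatch 5 G9 := by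
  apply batch_of_monotone
  intro f hf
  apply serves_of_solve sets9_ok
  have h := solve9 (f 0) (f 1) (hf (by decide)) (f 2) (hf (by decide)) (f 3) (hf (by decide)) (f 4)
    (hf (by decide))
  have e : (List.ofFn fun a => (f a).val) = [(f 0).val, (f 1).val, (f 2).val, (f 3).val, (f 4).val] := by
    simp [List.ofFn_succ]
  rw [e]
  exact h

/-- recovery sets of the columns of `G4` -/
def sets4 : List (List (ℕ × ℕ)) :=
  [[(1, 1), (14, 51)], [(2, 3), (13, 47)], [(4, 9), (11, 35)], [(8, 27), (7, 13)]]

theorem sets4_ok : ∀ v : Fin 4, ∀ mc ∈ sets4.getD v.val [], chk G4 v mc = true := by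
  decide +kernel

theorem solve4 : ∀ a b : Fin 4, solve (masks sets4) [a.val, b.val] 0 = true := by
  decide +kernel

theorem batch4 : AllSymbolBatch 2 G4 := by
  intro f
  apply serves_of_solve sets4_ok
  have e : (List.ofFn fun a => (f a).val) = [(f 0).val, (f 1).val] := by
    simp [List.ofFn_succ]
  rw [e]
  exact solve4 _ _

theorem batch21 : AllSymbolBatch 7 G21 := by
  intro f
  have hlt : ∀ a : Fin 7, 3 * a.val + (f a).val % 3 < 21 := by
    intro a
    have := a.isLt
    omega
  refine ⟨fun a => {⟨3 * a.val + (f a).val % 3, hlt a⟩}, ?_, ?_⟩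
  · intro a b hab
    rw [Finset.disjoint_singleton]
    intro h
    apply hab
    have h1 : 3 * a.val + (f a).val % 3 = 3 * b.val + (f b).val % 3 := congrArg Fin.val h
    apply Fin.ext
    omega
  · intro a
    apply Submodule.subset_span
    refine ⟨⟨3 * a.val + (f a).val % 3, hlt a⟩, by simp, ?_⟩
    ext i
    change G21 i _ = G21 i _
    unfold G21
    have : (3 * a.val + (f a).val % 3) % 3 = (f a).val % 3 := by omega
    simp only [this]

theorem li9 : LinearIndependent (ZMod 3) (fun i => G9 i) := by
  rw [Fintype.linearIndependent_iff]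
  intro c hc
  have h0 := congrFun hc 0
  have h1 := congrFun hc 1
  have h2 := congrFun hc 3
  simp only [Finset.sum_apply, Pi.smul_apply, smul_eq_mul, Fin.sum_univ_three, Pi.zero_apply,
    G9] at h0 h1 h2
  have key : ∀ a b d : ZMod 3, a * 1 + b * 0 + d * 0 = 0 → a * 1 + b * 0 + d * 1 = 0 →
      a * 1 + b * 1 + d * 0 = 0 → a = 0 ∧ b = 0 ∧ d = 0 := by decide
  have h3 := key (c 0) (c 1) (c 2) h0 h1 h2
  intro i
  fin_cases i
  · exact h3.1
  · exact h3.2.1
  · exact h3.2.2

theorem li4 : LinearIndependent (ZMod 3) (fun i => G4 i) := by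
  rw [Fintype.linearIndependent_iff]
  intro c hc
  have h0 := congrFun hc 0
  have h1 := congrFun hc 1
  have h2 := congrFun hc 2
  simp only [Finset.sum_apply, Pi.smul_apply, smul_eq_mul, Fin.sum_univ_three, Pi.zero_apply,
    G4] at h0 h1 h2
  have key : ∀ a b d : ZMod 3, a * 1 + b * 0 + d * 0 = 0 → a * 0 + b * 1 + d * 0 = 0 →
      a * 0 + b * 0 + d * 1 = 0 → a = 0 ∧ b = 0 ∧ d = 0 := by decide
  have h3 := key (c 0) (c 1) (c 2) h0 h1 h2
  intro i
  fin_cases i
  · exact h3.1
  · exact h3.2.1
  · exact h3.2.2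

theorem li21 : LinearIndependent (ZMod 3) (fun i => G21 i) := by
  rw [Fintype.linearIndependent_iff]
  intro c hc
  have h0 := congrFun hc 0
  have h1 := congrFun hc 1
  have h2 := congrFun hc 2
  simp only [Finset.sum_apply, Pi.smul_apply, smul_eq_mul, Fin.sum_univ_three, Pi.zero_apply,
    G21] at h0 h1 h2
  have key : ∀ a b d : ZMod 3, a * 1 + b * 0 + d * 0 = 0 → a * 0 + b * 1 + d * 0 = 0 →
      a * 0 + b * 0 + d * 1 = 0 → a = 0 ∧ b = 0 ∧ d = 0 := by decide
  have h3 := key (c 0) (c 1) (c 2) h0 h1 h2
  intro i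
  fin_cases i
  · exact h3.1
  · exact h3.2.1
  · exact h3.2.2

end Pool.Agent.Helper54K9.AllSym
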