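import Mathlib

/-!
# All-symbol PIR and batch codes
-/

set_option autoImplicit false

namespace Pool.Agent.Helper54K9.AllSym

variable {F : Type*} [Field F] {k n : ℕ}

/-- `R` is a recovery set for `v` with respect to the matrix `G`: the vector `v` lies in the span of the
columns of `G` with index in `R`. -/
def IsRecoverySet (G : Matrix (Fin k) (Fin n) F) (R : Finset (Fin n)) (v : Fin k → F) : Prop :=
  v ∈ Submodule.span F ((fun j => G.col j) '' (R : Set (Fin n)))

/-- `G` serves the family `v 0, ..., v (t - 1)` of vectors: there are pairwise disjoint recovery sets. -/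
def Serves (G : Matrix (Fin k) (Fin n) F) {t : ℕ} (v : Fin t → Fin k → F) : Prop :=
  ∃ R : Fin t → Finset (Fin n), (∀ a b, a ≠ b → Disjoint (R a) (R b)) ∧
    ∀ a, IsRecoverySet G (R a) (v a)

/-- `G` is a generator matrix of the linear code `C`: its rows form a basis of `C`. -/
def IsGeneratorMatrix (G : Matrix (Fin k) (Fin n) F) (C : Submodule F (Fin n → F)) : Prop :=
  LinearIndependent F (fun i => G i) ∧ Submodule.span F (Set.range (fun i => G i)) = C

/-- the `t`-all-symbol PIR property: for every column `g_j` of `G` the matrix serves `t` copies of `g_j` -/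
def AllSymbolPIR (t : ℕ) (G : Matrix (Fin k) (Fin n) F) : Prop :=
  ∀ j : Fin n, Serves G (fun _ : Fin t => G.col j)

/-- the `t`-all-symbol batch property: `G` serves every multiset of `t` of its columns -/
def AllSymbolBatch (t : ℕ) (G : Matrix (Fin k) (Fin n) F) : Prop :=
  ∀ f : Fin t → Fin n, Serves G (fun a => G.col (f a))

/-- the least length `n` of a `k`-dimensional linear code in `F ^ n` with the `t`-all-symbol PIR property -/
noncomputable def ASP (F : Type*) [Field F] (k t : ℕ) : ℕ :=
  sInf {n : ℕ | ∃ C : Submodule F (Fin n → F), Module.finrank F C = k ∧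
    ∃ G : Matrix (Fin k) (Fin n) F, IsGeneratorMatrix G C ∧ AllSymbolPIR t G}

/-- the least length `n` of a `k`-dimensional linear code in `F ^ n` with the `t`-all-symbol batch
property -/
noncomputable def ASB (F : Type*) [Field F] (k t : ℕ) : ℕ :=
  sInf {n : ℕ | ∃ C : Submodule F (Fin n → F), Module.finrank F C = k ∧
    ∃ G : Matrix (Fin k) (Fin n) F, IsGeneratorMatrix G C ∧ AllSymbolBatch t G}

end Pool.Agent.Helper54K9.AllSym
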