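import Pool.Agent.Helper54K9.AllSym.Search

set_option autoImplicit false
set_option linter.unusedVariables false
set_option maxRecDepth 10000

namespace Pool.Agent.Helper54K9.AllSym.Search

theorem okLine_le {a b c d : ℕ} (h : okLine a b c d = true) : a + b + c + d ≤ 6 := by
  unfold okLine at h
  simp only [Bool.and_eq_true, Nat.ble_eq] at h
  exact h.1

theorem bor_right {a b : Bool} (h : (!a || b) = true) (ha : a = true) : b = true := by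
  subst ha
  simpa using h

theorem s0 (x : ℕ) (h : f0 = true) (hx : x ≤ 3) (hk : k0 x = true) : f1 x = true := by
  rw [f0] at h
  have h2 : (!(k0 x) || f1 x) = true := all4_spec h hx
  exact bor_right h2 hk

theorem s1 (c0 x : ℕ) (h : f1 c0 = true) (hx : x ≤ 3) (hk : k1 c0 x = true) : f2 c0 x = true := by
  rw [f1] at h
  have h2 : (!(k1 c0 x) || f2 c0 x) = true := all4_spec h hx
  exact bor_right h2 hk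

theorem s2 (c0 c1 x : ℕ) (h : f2 c0 c1 = true) (hx : x ≤ 3) (hk : k2 c0 c1 x = true) : f3 c0 c1 x = true := by
  rw [f2] at h
  have h2 : (!(k2 c0 c1 x) || f3 c0 c1 x) = true := all4_spec h hx
  exact bor_right h2 hk

theorem s3 (c0 c1 c2 x : ℕ) (h : f3 c0 c1 c2 = true) (hx : x ≤ 3) (hk : k3 c0 c1 c2 x = true) : f4 c0 c1 c2 x = true := by
  rw [f3] at h
  have h2 : (!(k3 c0 c1 c2 x) || f4 c0 c1 c2 x) = true := all4_spec h hx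
  exact bor_right h2 hk

theorem s4 (c0 c1 c2 c3 x : ℕ) (h : f4 c0 c1 c2 c3 = true) (hx : x ≤ 3) (hk : k4 c0 c1 c2 c3 x = true) : f5 c0 c1 c2 c3 x = true := by
  rw [f4] at h
  have h2 : (!(k4 c0 c1 c2 c3 x) || f5 c0 c1 c2 c3 x) = true := all4_spec h hx
  exact bor_right h2 hk

theorem s5 (c0 c1 c2 c3 c4 x : ℕ) (h : f5 c0 c1 c2 c3 c4 = true) (hx : x ≤ 3) (hk : k5 c0 c1 c2 c3 c4 x = true) : f6 c0 c1 c2 c3 c4 x = true := by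
  rw [f5] at h
  have h2 : (!(k5 c0 c1 c2 c3 c4 x) || f6 c0 c1 c2 c3 c4 x) = true := all4_spec h hx
  exact bor_right h2 hk

theorem s6 (c0 c1 c2 c3 c4 c5 x : ℕ) (h : f6 c0 c1 c2 c3 c4 c5 = true) (hx : x ≤ 3) (hk : k6 c0 c1 c2 c3 c4 c5 x = true) : f7 c0 c1 c2 c3 c4 c5 x = true := by
  rw [f6] at h
  have h2 : (!(k6 c0 c1 c2 c3 c4 c5 x) || f7 c0 c1 c2 c3 c4 c5 x) = true := all4_spec h hx
  exact bor_right h2 hk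

theorem s7 (c0 c1 c2 c3 c4 c5 c6 x : ℕ) (h : f7 c0 c1 c2 c3 c4 c5 c6 = true) (hx : x ≤ 3) (hk : k7 c0 c1 c2 c3 c4 c5 c6 x = true) : f8 c0 c1 c2 c3 c4 c5 c6 x = true := by
  rw [f7] at h
  have h2 : (!(k7 c0 c1 c2 c3 c4 c5 c6 x) || f8 c0 c1 c2 c3 c4 c5 c6 x) = true := all4_spec h hx
  exact bor_right h2 hk

theorem s8 (c0 c1 c2 c3 c4 c5 c6 c7 x : ℕ) (h : f8 c0 c1 c2 c3 c4 c5 c6 c7 = true) (hx : x ≤ 3) (hk : k8 c0 c1 c2 c3 c4 c5 c6 c7 x = true) : f9 c0 c1 c2 c3 c4 c5 c6 c7 x = true := by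
  rw [f8] at h
  have h2 : (!(k8 c0 c1 c2 c3 c4 c5 c6 c7 x) || f9 c0 c1 c2 c3 c4 c5 c6 c7 x) = true := all4_spec h hx
  exact bor_right h2 hk

theorem s9 (c0 c1 c2 c3 c4 c5 c6 c7 c8 x : ℕ) (h : f9 c0 c1 c2 c3 c4 c5 c6 c7 c8 = true) (hx : x ≤ 3) (hk : k9 c0 c1 c2 c3 c4 c5 c6 c7 c8 x = true) : f10 c0 c1 c2 c3 c4 c5 c6 c7 c8 x = true := by
  rw [f9] at h
  have h2 : (!(k9 c0 c1 c2 c3 c4 c5 c6 c7 c8 x) || f10 c0 c1 c2 c3 c4 c5 c6 c7 c8 x) = true := all4_spec h hx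
  exact bor_right h2 hk

theorem s10 (c0 c1 c2 c3 c4 c5 c6 c7 c8 c9 x : ℕ) (h : f10 c0 c1 c2 c3 c4 c5 c6 c7 c8 c9 = true) (hx : x ≤ 3) (hk : k10 c0 c1 c2 c3 c4 c5 c6 c7 c8 c9 x = true) : f11 c0 c1 c2 c3 c4 c5 c6 c7 c8 c9 x = true := by
  rw [f10] at h
  have h2 : (!(k10 c0 c1 c2 c3 c4 c5 c6 c7 c8 c9 x) || f11 c0 c1 c2 c3 c4 c5 c6 c7 c8 c9 x) = true := all4_spec h hx
  exact bor_right h2 hk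

theorem s11 (c0 c1 c2 c3 c4 c5 c6 c7 c8 c9 c10 x : ℕ) (h : f11 c0 c1 c2 c3 c4 c5 c6 c7 c8 c9 c10 = true) (hx : x ≤ 3) (hk : k11 c0 c1 c2 c3 c4 c5 c6 c7 c8 c9 c10 x = true) : f12 c0 c1 c2 c3 c4 c5 c6 c7 c8 c9 c10 x = true := by
  rw [f11] at h
  have h2 : (!(k11 c0 c1 c2 c3 c4 c5 c6 c7 c8 c9 c10 x) || f12 c0 c1 c2 c3 c4 c5 c6 c7 c8 c9 c10 x) = true := all4_spec h hx
  exact bor_right h2 hk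

theorem s12 (c0 c1 c2 c3 c4 c5 c6 c7 c8 c9 c10 c11 x : ℕ) (h : f12 c0 c1 c2 c3 c4 c5 c6 c7 c8 c9 c10 c11 = true) (hx : x ≤ 3) (hk : k12 c0 c1 c2 c3 c4 c5 c6 c7 c8 c9 c10 c11 x = true) : leaf c0 c1 c2 c3 c4 c5 c6 c7 c8 c9 c10 c11 x = true := by
  rw [f12] at h
  have h2 : (!(k12 c0 c1 c2 c3 c4 c5 c6 c7 c8 c9 c10 c11 x) || leaf c0 c1 c2 c3 c4 c5 c6 c7 c8 c9 c10 c11 x) = true := all4_spec h hx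
  exact bor_right h2 hk

theorem part {a b c d : ℕ} (h : a + b + c + d ≤ 6) : a + b + c ≤ 6 := by omega

theorem t0 (c0 c1 c2 c3 c4 c5 c6 c7 c8 c9 c10 c11 c12 : ℕ) (hs : c0 + c1 + c2 + c3 + c4 + c5 + c6 + c7 + c8 + c9 + c10 + c11 + c12 = 13) : c0 ≤ 13 := by
  omega

theorem u0 (c0 c1 c2 c3 c4 c5 c6 c7 c8 c9 c10 c11 c12 : ℕ) (hs : c0 + c1 + c2 + c3 + c4 + c5 + c6 + c7 + c8 + c9 + c10 + c11 + c12 = 13) (h1 : c1 ≤ 3) (h2 : c2 ≤ 3) (h3 : c3 ≤ 3) (h4 : c4 ≤ 3) (h5 : c5 ≤ 3) (h6 : c6 ≤ 3) (h7 : c7 ≤ 3) (h8 : c8 ≤ 3) (h9 : c9 ≤ 3) (h10 : c10 ≤ 3) (h11 : c11 ≤ 3) (h12 : c12 ≤ 3) : 13 ≤ c0 + 36 := by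
  omega

theorem t1 (c0 c1 c2 c3 c4 c5 c6 c7 c8 c9 c10 c11 c12 : ℕ) (hs : c0 + c1 + c2 + c3 + c4 + c5 + c6 + c7 + c8 + c9 + c10 + c11 + c12 = 13) : c0 + c1 ≤ 13 := by
  omega

theorem u1 (c0 c1 c2 c3 c4 c5 c6 c7 c8 c9 c10 c11 c12 : ℕ) (hs : c0 + c1 + c2 + c3 + c4 + c5 + c6 + c7 + c8 + c9 + c10 + c11 + c12 = 13) (h2 : c2 ≤ 3) (h3 : c3 ≤ 3) (h4 : c4 ≤ 3) (h5 : c5 ≤ 3) (h6 : c6 ≤ 3) (h7 : c7 ≤ 3) (h8 : c8 ≤ 3) (h9 : c9 ≤ 3) (h10 : c10 ≤ 3) (h11 : c11 ≤ 3) (h12 : c12 ≤ 3) : 13 ≤ c0 + c1 + 33 := by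
  omega

theorem t2 (c0 c1 c2 c3 c4 c5 c6 c7 c8 c9 c10 c11 c12 : ℕ) (hs : c0 + c1 + c2 + c3 + c4 + c5 + c6 + c7 + c8 + c9 + c10 + c11 + c12 = 13) : c0 + c1 + c2 ≤ 13 := by
  omega

theorem u2 (c0 c1 c2 c3 c4 c5 c6 c7 c8 c9 c10 c11 c12 : ℕ) (hs : c0 + c1 + c2 + c3 + c4 + c5 + c6 + c7 + c8 + c9 + c10 + c11 + c12 = 13) (h3 : c3 ≤ 3) (h4 : c4 ≤ 3) (h5 : c5 ≤ 3) (h6 : c6 ≤ 3) (h7 : c7 ≤ 3) (h8 : c8 ≤ 3) (h9 : c9 ≤ 3) (h10 : c10 ≤ 3) (h11 : c11 ≤ 3) (h12 : c12 ≤ 3) : 13 ≤ c0 + c1 + c2 + 30 := by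
  omega

theorem t3 (c0 c1 c2 c3 c4 c5 c6 c7 c8 c9 c10 c11 c12 : ℕ) (hs : c0 + c1 + c2 + c3 + c4 + c5 + c6 + c7 + c8 + c9 + c10 + c11 + c12 = 13) : c0 + c1 + c2 + c3 ≤ 13 := by
  omega

theorem u3 (c0 c1 c2 c3 c4 c5 c6 c7 c8 c9 c10 c11 c12 : ℕ) (hs : c0 + c1 + c2 + c3 + c4 + c5 + c6 + c7 + c8 + c9 + c10 + c11 + c12 = 13) (h4 : c4 ≤ 3) (h5 : c5 ≤ 3) (h6 : c6 ≤ 3) (h7 : c7 ≤ 3) (h8 : c8 ≤ 3) (h9 : c9 ≤ 3) (h10 : c10 ≤ 3) (h11 : c11 ≤ 3) (h12 : c12 ≤ 3) : 13 ≤ c0 + c1 + c2 + c3 + 27 := by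
  omega

theorem t4 (c0 c1 c2 c3 c4 c5 c6 c7 c8 c9 c10 c11 c12 : ℕ) (hs : c0 + c1 + c2 + c3 + c4 + c5 + c6 + c7 + c8 + c9 + c10 + c11 + c12 = 13) : c0 + c1 + c2 + c3 + c4 ≤ 13 := by
  omega

theorem u4 (c0 c1 c2 c3 c4 c5 c6 c7 c8 c9 c10 c11 c12 : ℕ) (hs : c0 + c1 + c2 + c3 + c4 + c5 + c6 + c7 + c8 + c9 + c10 + c11 + c12 = 13) (h5 : c5 ≤ 3) (h6 : c6 ≤ 3) (h7 : c7 ≤ 3) (h8 : c8 ≤ 3) (h9 : c9 ≤ 3) (h10 : c10 ≤ 3) (h11 : c11 ≤ 3) (h12 : c12 ≤ 3) : 13 ≤ c0 + c1 + c2 + c3 + c4 + 24 := by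
  omega

theorem t5 (c0 c1 c2 c3 c4 c5 c6 c7 c8 c9 c10 c11 c12 : ℕ) (hs : c0 + c1 + c2 + c3 + c4 + c5 + c6 + c7 + c8 + c9 + c10 + c11 + c12 = 13) : c0 + c1 + c2 + c3 + c4 + c5 ≤ 13 := by
  omega

theorem u5 (c0 c1 c2 c3 c4 c5 c6 c7 c8 c9 c10 c11 c12 : ℕ) (hs : c0 + c1 + c2 + c3 + c4 + c5 + c6 + c7 + c8 + c9 + c10 + c11 + c12 = 13) (h6 : c6 ≤ 3) (h7 : c7 ≤ 3) (h8 : c8 ≤ 3) (h9 : c9 ≤ 3) (h10 : c10 ≤ 3) (h11 : c11 ≤ 3) (h12 : c12 ≤ 3) : 13 ≤ c0 + c1 + c2 + c3 + c4 + c5 + 21 := by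
  omega

theorem t6 (c0 c1 c2 c3 c4 c5 c6 c7 c8 c9 c10 c11 c12 : ℕ) (hs : c0 + c1 + c2 + c3 + c4 + c5 + c6 + c7 + c8 + c9 + c10 + c11 + c12 = 13) : c0 + c1 + c2 + c3 + c4 + c5 + c6 ≤ 13 := by
  omega

theorem u6 (c0 c1 c2 c3 c4 c5 c6 c7 c8 c9 c10 c11 c12 : ℕ) (hs : c0 + c1 + c2 + c3 + c4 + c5 + c6 + c7 + c8 + c9 + c10 + c11 + c12 = 13) (h7 : c7 ≤ 3) (h8 : c8 ≤ 3) (h9 : c9 ≤ 3) (h10 : c10 ≤ 3) (h11 : c11 ≤ 3) (h12 : c12 ≤ 3) : 13 ≤ c0 + c1 + c2 + c3 + c4 + c5 + c6 + 18 := by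
  omega

theorem t7 (c0 c1 c2 c3 c4 c5 c6 c7 c8 c9 c10 c11 c12 : ℕ) (hs : c0 + c1 + c2 + c3 + c4 + c5 + c6 + c7 + c8 + c9 + c10 + c11 + c12 = 13) : c0 + c1 + c2 + c3 + c4 + c5 + c6 + c7 ≤ 13 := by
  omega

theorem u7 (c0 c1 c2 c3 c4 c5 c6 c7 c8 c9 c10 c11 c12 : ℕ) (hs : c0 + c1 + c2 + c3 + c4 + c5 + c6 + c7 + c8 + c9 + c10 + c11 + c12 = 13) (h8 : c8 ≤ 3) (h9 : c9 ≤ 3) (h10 : c10 ≤ 3) (h11 : c11 ≤ 3) (h12 : c12 ≤ 3) : 13 ≤ c0 + c1 + c2 + c3 + c4 + c5 + c6 + c7 + 15 := by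
  omega

theorem t8 (c0 c1 c2 c3 c4 c5 c6 c7 c8 c9 c10 c11 c12 : ℕ) (hs : c0 + c1 + c2 + c3 + c4 + c5 + c6 + c7 + c8 + c9 + c10 + c11 + c12 = 13) : c0 + c1 + c2 + c3 + c4 + c5 + c6 + c7 + c8 ≤ 13 := by
  omega

theorem u8 (c0 c1 c2 c3 c4 c5 c6 c7 c8 c9 c10 c11 c12 : ℕ) (hs : c0 + c1 + c2 + c3 + c4 + c5 + c6 + c7 + c8 + c9 + c10 + c11 + c12 = 13) (h9 : c9 ≤ 3) (h10 : c10 ≤ 3) (h11 : c11 ≤ 3) (h12 : c12 ≤ 3) : 13 ≤ c0 + c1 + c2 + c3 + c4 + c5 + c6 + c7 + c8 + 12 := by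
  omega

theorem t9 (c0 c1 c2 c3 c4 c5 c6 c7 c8 c9 c10 c11 c12 : ℕ) (hs : c0 + c1 + c2 + c3 + c4 + c5 + c6 + c7 + c8 + c9 + c10 + c11 + c12 = 13) : c0 + c1 + c2 + c3 + c4 + c5 + c6 + c7 + c8 + c9 ≤ 13 := by
  omega

theorem u9 (c0 c1 c2 c3 c4 c5 c6 c7 c8 c9 c10 c11 c12 : ℕ) (hs : c0 + c1 + c2 + c3 + c4 + c5 + c6 + c7 + c8 + c9 + c10 + c11 + c12 = 13) (h10 : c10 ≤ 3) (h11 : c11 ≤ 3) (h12 : c12 ≤ 3) : 13 ≤ c0 + c1 + c2 + c3 + c4 + c5 + c6 + c7 + c8 + c9 + 9 := by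
  omega

theorem t10 (c0 c1 c2 c3 c4 c5 c6 c7 c8 c9 c10 c11 c12 : ℕ) (hs : c0 + c1 + c2 + c3 + c4 + c5 + c6 + c7 + c8 + c9 + c10 + c11 + c12 = 13) : c0 + c1 + c2 + c3 + c4 + c5 + c6 + c7 + c8 + c9 + c10 ≤ 13 := by
  omega

theorem u10 (c0 c1 c2 c3 c4 c5 c6 c7 c8 c9 c10 c11 c12 : ℕ) (hs : c0 + c1 + c2 + c3 + c4 + c5 + c6 + c7 + c8 + c9 + c10 + c11 + c12 = 13) (h11 : c11 ≤ 3) (h12 : c12 ≤ 3) : 13 ≤ c0 + c1 + c2 + c3 + c4 + c5 + c6 + c7 + c8 + c9 + c10 + 6 := by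
  omega

theorem t11 (c0 c1 c2 c3 c4 c5 c6 c7 c8 c9 c10 c11 c12 : ℕ) (hs : c0 + c1 + c2 + c3 + c4 + c5 + c6 + c7 + c8 + c9 + c10 + c11 + c12 = 13) : c0 + c1 + c2 + c3 + c4 + c5 + c6 + c7 + c8 + c9 + c10 + c11 ≤ 13 := by
  omega

theorem u11 (c0 c1 c2 c3 c4 c5 c6 c7 c8 c9 c10 c11 c12 : ℕ) (hs : c0 + c1 + c2 + c3 + c4 + c5 + c6 + c7 + c8 + c9 + c10 + c11 + c12 = 13) (h12 : c12 ≤ 3) : 13 ≤ c0 + c1 + c2 + c3 + c4 + c5 + c6 + c7 + c8 + c9 + c10 + c11 + 3 := by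
  omega

theorem nosol (c0 c1 c2 c3 c4 c5 c6 c7 c8 c9 c10 c11 c12 : ℕ)
    (h0 : c0 ≤ 3)
    (h1 : c1 ≤ 3)
    (h2 : c2 ≤ 3)
    (h3 : c3 ≤ 3)
    (h4 : c4 ≤ 3)
    (h5 : c5 ≤ 3)
    (h6 : c6 ≤ 3)
    (h7 : c7 ≤ 3)
    (h8 : c8 ≤ 3)
    (h9 : c9 ≤ 3)
    (h10 : c10 ≤ 3)
    (h11 : c11 ≤ 3)
    (h12 : c12 ≤ 3)
    (hs : c0 + c1 + c2 + c3 + c4 + c5 + c6 + c7 + c8 + c9 + c10 + c11 + c12 = 13)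
    (l0 : okLine c1 c4 c7 c10 = true)
    (l1 : okLine c0 c4 c5 c6 = true)
    (l2 : okLine c3 c4 c9 c11 = true)
    (l3 : okLine c2 c4 c8 c12 = true)
    (l4 : okLine c0 c1 c2 c3 = true)
    (l5 : okLine c1 c6 c9 c12 = true)
    (l6 : okLine c1 c5 c8 c11 = true)
    (l7 : okLine c0 c10 c11 c12 = true)
    (l8 : okLine c3 c6 c8 c10 = true)
    (l9 : okLine c2 c5 c9 c10 = true)
    (l10 : okLine c0 c7 c8 c9 = true)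
    (l11 : okLine c2 c6 c7 c11 = true)
    (l12 : okLine c3 c5 c7 c12 = true)
    (n0 : viol c0 (pl c4 c5 c6) (pl c1 c2 c3) (pl c10 c11 c12) (pl c7 c8 c9) = false)
    (n1 : viol c1 (pl c4 c7 c10) (pl c0 c2 c3) (pl c6 c9 c12) (pl c5 c8 c11) = false)
    (n2 : viol c2 (pl c4 c8 c12) (pl c0 c1 c3) (pl c5 c9 c10) (pl c6 c7 c11) = false)
    (n3 : viol c3 (pl c4 c9 c11) (pl c0 c1 c2) (pl c6 c8 c10) (pl c5 c7 c12) = false)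
    (n4 : viol c4 (pl c1 c7 c10) (pl c0 c5 c6) (pl c3 c9 c11) (pl c2 c8 c12) = false)
    (n5 : viol c5 (pl c0 c4 c6) (pl c1 c8 c11) (pl c2 c9 c10) (pl c3 c7 c12) = false)
    (n6 : viol c6 (pl c0 c4 c5) (pl c1 c9 c12) (pl c3 c8 c10) (pl c2 c7 c11) = false)
    (n7 : viol c7 (pl c1 c4 c10) (pl c0 c8 c9) (pl c2 c6 c11) (pl c3 c5 c12) = false)
    (n8 : viol c8 (pl c2 c4 c12) (pl c1 c5 c11) (pl c3 c6 c10) (pl c0 c7 c9) = false)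
    (n9 : viol c9 (pl c3 c4 c11) (pl c1 c6 c12) (pl c2 c5 c10) (pl c0 c7 c8) = false)
    (n10 : viol c10 (pl c1 c4 c7) (pl c0 c11 c12) (pl c3 c6 c8) (pl c2 c5 c9) = false)
    (n11 : viol c11 (pl c3 c4 c9) (pl c1 c5 c8) (pl c0 c10 c12) (pl c2 c6 c7) = false)
    (n12 : viol c12 (pl c2 c4 c8) (pl c1 c6 c9) (pl c0 c10 c11) (pl c3 c5 c7) = false)
    : False := by
  have m0 := okLine_le l0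
  have m1 := okLine_le l1
  have m2 := okLine_le l2
  have m3 := okLine_le l3
  have m4 := okLine_le l4
  have m5 := okLine_le l5
  have m6 := okLine_le l6
  have m7 := okLine_le l7
  have m8 := okLine_le l8
  have m9 := okLine_le l9
  have m10 := okLine_le l10
  have m11 := okLine_le l11
  have m12 := okLine_le l12
  have e0 := f0_true
  have kk0 : k0 c0 = true := by
    unfold k0
    simp only [Bool.and_eq_true, Nat.ble_eq, Nat.beq_eq]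
    refine ⟨t0 c0 c1 c2 c3 c4 c5 c6 c7 c8 c9 c10 c11 c12 hs, u0 c0 c1 c2 c3 c4 c5 c6 c7 c8 c9 c10 c11 c12 hs h1 h2 h3 h4 h5 h6 h7 h8 h9 h10 h11 h12⟩
  have e1 : f1 c0 = true := s0 c0 e0 h0 kk0
  clear e0 kk0
  have kk1 : k1 c0 c1 = true := by
    unfold k1
    simp only [Bool.and_eq_true, Nat.ble_eq, Nat.beq_eq]
    refine ⟨t1 c0 c1 c2 c3 c4 c5 c6 c7 c8 c9 c10 c11 c12 hs, u1 c0 c1 c2 c3 c4 c5 c6 c7 c8 c9 c10 c11 c12 hs h2 h3 h4 h5 h6 h7 h8 h9 h10 h11 h12⟩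
  have e2 : f2 c0 c1 = true := s1 c0 c1 e1 h1 kk1
  clear e1 kk1
  have kk2 : k2 c0 c1 c2 = true := by
    unfold k2
    simp only [Bool.and_eq_true, Nat.ble_eq, Nat.beq_eq]
    refine ⟨t2 c0 c1 c2 c3 c4 c5 c6 c7 c8 c9 c10 c11 c12 hs, u2 c0 c1 c2 c3 c4 c5 c6 c7 c8 c9 c10 c11 c12 hs h3 h4 h5 h6 h7 h8 h9 h10 h11 h12, part m4⟩
  have e3 : f3 c0 c1 c2 = true := s2 c0 c1 c2 e2 h2 kk2
  clear e2 kk2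
  have kk3 : k3 c0 c1 c2 c3 = true := by
    unfold k3
    simp only [Bool.and_eq_true, Nat.ble_eq, Nat.beq_eq]
    refine ⟨t3 c0 c1 c2 c3 c4 c5 c6 c7 c8 c9 c10 c11 c12 hs, u3 c0 c1 c2 c3 c4 c5 c6 c7 c8 c9 c10 c11 c12 hs h4 h5 h6 h7 h8 h9 h10 h11 h12, l4⟩
  have e4 : f4 c0 c1 c2 c3 = true := s3 c0 c1 c2 c3 e3 h3 kk3
  clear e3 kk3
  have kk4 : k4 c0 c1 c2 c3 c4 = true := by
    unfold k4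
    simp only [Bool.and_eq_true, Nat.ble_eq, Nat.beq_eq]
    refine ⟨t4 c0 c1 c2 c3 c4 c5 c6 c7 c8 c9 c10 c11 c12 hs, u4 c0 c1 c2 c3 c4 c5 c6 c7 c8 c9 c10 c11 c12 hs h5 h6 h7 h8 h9 h10 h11 h12⟩
  have e5 : f5 c0 c1 c2 c3 c4 = true := s4 c0 c1 c2 c3 c4 e4 h4 kk4
  clear e4 kk4
  have kk5 : k5 c0 c1 c2 c3 c4 c5 = true := by
    unfold k5
    simp only [Bool.and_eq_true, Nat.ble_eq, Nat.beq_eq]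
    refine ⟨t5 c0 c1 c2 c3 c4 c5 c6 c7 c8 c9 c10 c11 c12 hs, u5 c0 c1 c2 c3 c4 c5 c6 c7 c8 c9 c10 c11 c12 hs h6 h7 h8 h9 h10 h11 h12, part m1⟩
  have e6 : f6 c0 c1 c2 c3 c4 c5 = true := s5 c0 c1 c2 c3 c4 c5 e5 h5 kk5
  clear e5 kk5
  have kk6 : k6 c0 c1 c2 c3 c4 c5 c6 = true := by
    unfold k6
    simp only [Bool.and_eq_true, Nat.ble_eq, Nat.beq_eq]
    refine ⟨t6 c0 c1 c2 c3 c4 c5 c6 c7 c8 c9 c10 c11 c12 hs, u6 c0 c1 c2 c3 c4 c5 c6 c7 c8 c9 c10 c11 c12 hs h7 h8 h9 h10 h11 h12, l1⟩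
  have e7 : f7 c0 c1 c2 c3 c4 c5 c6 = true := s6 c0 c1 c2 c3 c4 c5 c6 e6 h6 kk6
  clear e6 kk6
  have kk7 : k7 c0 c1 c2 c3 c4 c5 c6 c7 = true := by
    unfold k7
    simp only [Bool.and_eq_true, Nat.ble_eq, Nat.beq_eq]
    refine ⟨t7 c0 c1 c2 c3 c4 c5 c6 c7 c8 c9 c10 c11 c12 hs, u7 c0 c1 c2 c3 c4 c5 c6 c7 c8 c9 c10 c11 c12 hs h8 h9 h10 h11 h12, part m0, part m11, part m12⟩
  have e8 : f8 c0 c1 c2 c3 c4 c5 c6 c7 = true := s7 c0 c1 c2 c3 c4 c5 c6 c7 e7 h7 kk7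
  clear e7 kk7
  have kk8 : k8 c0 c1 c2 c3 c4 c5 c6 c7 c8 = true := by
    unfold k8
    simp only [Bool.and_eq_true, Nat.ble_eq, Nat.beq_eq]
    refine ⟨t8 c0 c1 c2 c3 c4 c5 c6 c7 c8 c9 c10 c11 c12 hs, u8 c0 c1 c2 c3 c4 c5 c6 c7 c8 c9 c10 c11 c12 hs h9 h10 h11 h12, part m3, part m6, part m8, part m10⟩
  have e9 : f9 c0 c1 c2 c3 c4 c5 c6 c7 c8 = true := s8 c0 c1 c2 c3 c4 c5 c6 c7 c8 e8 h8 kk8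
  clear e8 kk8
  have kk9 : k9 c0 c1 c2 c3 c4 c5 c6 c7 c8 c9 = true := by
    unfold k9
    simp only [Bool.and_eq_true, Nat.ble_eq, Nat.beq_eq]
    refine ⟨t9 c0 c1 c2 c3 c4 c5 c6 c7 c8 c9 c10 c11 c12 hs, u9 c0 c1 c2 c3 c4 c5 c6 c7 c8 c9 c10 c11 c12 hs h10 h11 h12, part m2, part m5, part m9, l10⟩
  have e10 : f10 c0 c1 c2 c3 c4 c5 c6 c7 c8 c9 = true := s9 c0 c1 c2 c3 c4 c5 c6 c7 c8 c9 e9 h9 kk9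
  clear e9 kk9
  have kk10 : k10 c0 c1 c2 c3 c4 c5 c6 c7 c8 c9 c10 = true := by
    unfold k10
    simp only [Bool.and_eq_true, Nat.ble_eq, Nat.beq_eq]
    refine ⟨t10 c0 c1 c2 c3 c4 c5 c6 c7 c8 c9 c10 c11 c12 hs, u10 c0 c1 c2 c3 c4 c5 c6 c7 c8 c9 c10 c11 c12 hs h11 h12, l0, l8, l9⟩
  have e11 : f11 c0 c1 c2 c3 c4 c5 c6 c7 c8 c9 c10 = true := s10 c0 c1 c2 c3 c4 c5 c6 c7 c8 c9 c10 e10 h10 kk10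
  clear e10 kk10
  have kk11 : k11 c0 c1 c2 c3 c4 c5 c6 c7 c8 c9 c10 c11 = true := by
    unfold k11
    simp only [Bool.and_eq_true, Nat.ble_eq, Nat.beq_eq]
    refine ⟨t11 c0 c1 c2 c3 c4 c5 c6 c7 c8 c9 c10 c11 c12 hs, u11 c0 c1 c2 c3 c4 c5 c6 c7 c8 c9 c10 c11 c12 hs h12, l2, l6, part m7, l11⟩
  have e12 : f12 c0 c1 c2 c3 c4 c5 c6 c7 c8 c9 c10 c11 = true := s11 c0 c1 c2 c3 c4 c5 c6 c7 c8 c9 c10 c11 e11 h11 kk11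
  clear e11 kk11
  have kk12 : k12 c0 c1 c2 c3 c4 c5 c6 c7 c8 c9 c10 c11 c12 = true := by
    unfold k12
    simp only [Bool.and_eq_true, Nat.ble_eq, Nat.beq_eq]
    refine ⟨hs, l3, l5, l7, l12⟩
  have e13 : leaf c0 c1 c2 c3 c4 c5 c6 c7 c8 c9 c10 c11 c12 = true := s12 c0 c1 c2 c3 c4 c5 c6 c7 c8 c9 c10 c11 c12 e12 h12 kk12
  clear e12 kk12
  unfold leaf at e13
  simp only [n0, n1, n2, n3, n4, n5, n6, n7, n8, n9, n10, n11, n12, Bool.or_false, Bool.false_eq_true] at e13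

end Pool.Agent.Helper54K9.AllSym.Search
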