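import Pool.Agent.Helper54K9.AllSym.Good
import Pool.Agent.Helper54K9.AllSym.NoSol

set_option autoImplicit false
set_option linter.unusedVariables false
set_option maxRecDepth 10000

namespace Pool.Agent.Helper54K9.AllSym

open Finset Search

/-- the pairing condition at a point of weight `w`; the other points on its four lines have weights
`x1, y1, z1`, ..., `x4, y4, z4` -/
def PtOK (w x1 y1 z1 x2 y2 z2 x3 y3 z3 x4 y4 z4 : ℕ) : Prop :=
  w = 0 ∨ ∃ P1 P2 P3 P4 : ℕ, 8 ≤ P1 + P2 + P3 + P4 + 2 * w ∧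
    (2 * P1 ≤ x1 + y1 + z1 ∧ P1 + x1 ≤ x1 + y1 + z1 ∧ P1 + y1 ≤ x1 + y1 + z1 ∧ P1 + z1 ≤ x1 + y1 + z1) ∧
    (2 * P2 ≤ x2 + y2 + z2 ∧ P2 + x2 ≤ x2 + y2 + z2 ∧ P2 + y2 ≤ x2 + y2 + z2 ∧ P2 + z2 ≤ x2 + y2 + z2) ∧
    (2 * P3 ≤ x3 + y3 + z3 ∧ P3 + x3 ≤ x3 + y3 + z3 ∧ P3 + y3 ≤ x3 + y3 + z3 ∧ P3 + z3 ≤ x3 + y3 + z3) ∧
    (2 * P4 ≤ x4 + y4 + z4 ∧ P4 + x4 ≤ x4 + y4 + z4 ∧ P4 + y4 ≤ x4 + y4 + z4 ∧ P4 + z4 ≤ x4 + y4 + z4)

theorem le_pl {P x y z : ℕ} (h : 2 * P ≤ x + y + z ∧ P + x ≤ x + y + z ∧ P + y ≤ x + y + z ∧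
    P + z ≤ x + y + z) : P ≤ pl x y z := by
  unfold pl
  have h1 : P ≤ (x + y + z) / 2 := by omega
  have h2 : P ≤ y + z := by omega
  have h3 : P ≤ x + z := by omega
  have h4 : P ≤ x + y := by omega
  exact le_min h1 (le_min h2 (le_min h3 h4))

theorem ptok_viol {w x1 y1 z1 x2 y2 z2 x3 y3 z3 x4 y4 z4 : ℕ} (h : PtOK w x1 y1 z1 x2 y2 z2 x3 y3 z3 x4 y4 z4) :
    viol w (pl x1 y1 z1) (pl x2 y2 z2) (pl x3 y3 z3) (pl x4 y4 z4) = false := by
  rcases h with h | ⟨P1, P2, P3, P4, h8, h1, h2, h3, h4⟩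
  · subst h; rfl
  · have a1 := le_pl h1
    have a2 := le_pl h2
    have a3 := le_pl h3
    have a4 := le_pl h4
    unfold viol
    have : Nat.blt (pl x1 y1 z1 + pl x2 y2 z2 + pl x3 y3 z3 + pl x4 y4 z4 + 2 * w) 8 = false := by
      rw [← Bool.not_eq_true, Nat.blt_eq]
      omega
    rw [this, Bool.and_false]

theorem par_one {P x y z : ℕ} (h : 2 * P ≤ x + y + z ∧ P + x ≤ x + y + z ∧ P + y ≤ x + y + z ∧
    P + z ≤ x + y + z) (he : 2 * P = x + y + z) (h6 : 1 + x + y + z ≤ 6) :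
    (x + y + z) % 2 = 0 ∧ x ≤ 2 ∧ y ≤ 2 ∧ z ≤ 2 := by
  omega

theorem ptok_par {w x1 y1 z1 x2 y2 z2 x3 y3 z3 x4 y4 z4 : ℕ} (h : PtOK w x1 y1 z1 x2 y2 z2 x3 y3 z3 x4 y4 z4)
    (ht : w + x1 + y1 + z1 + x2 + y2 + z2 + x3 + y3 + z3 + x4 + y4 + z4 = 13)
    (s1 : w + x1 + y1 + z1 ≤ 6)
    (s2 : w + x2 + y2 + z2 ≤ 6)
    (s3 : w + x3 + y3 + z3 ≤ 6)
    (s4 : w + x4 + y4 + z4 ≤ 6)
    (hw : w = 1) :
    ((x1 + y1 + z1) % 2 = 0 ∧ x1 ≤ 2 ∧ y1 ≤ 2 ∧ z1 ≤ 2) ∧
    ((x2 + y2 + z2) % 2 = 0 ∧ x2 ≤ 2 ∧ y2 ≤ 2 ∧ z2 ≤ 2) ∧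
    ((x3 + y3 + z3) % 2 = 0 ∧ x3 ≤ 2 ∧ y3 ≤ 2 ∧ z3 ≤ 2) ∧
    ((x4 + y4 + z4) % 2 = 0 ∧ x4 ≤ 2 ∧ y4 ≤ 2 ∧ z4 ≤ 2) := by
  rcases h with h | ⟨P1, P2, P3, P4, h8, h1, h2, h3, h4⟩
  · omega
  · subst hw
    obtain ⟨g1, _⟩ := id h1
    obtain ⟨g2, _⟩ := id h2
    obtain ⟨g3, _⟩ := id h3
    obtain ⟨g4, _⟩ := id h4
    have e1 : 2 * P1 = x1 + y1 + z1 := by clear h1 h2 h3 h4 s1 s2 s3 s4; omega
    have e2 : 2 * P2 = x2 + y2 + z2 := by clear h1 h2 h3 h4 s1 s2 s3 s4; omega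
    have e3 : 2 * P3 = x3 + y3 + z3 := by clear h1 h2 h3 h4 s1 s2 s3 s4; omega
    have e4 : 2 * P4 = x4 + y4 + z4 := by clear h1 h2 h3 h4 s1 s2 s3 s4; omega
    exact ⟨par_one h1 e1 s1, par_one h2 e2 s2, par_one h3 e3 s3, par_one h4 e4 s4⟩

theorem okLine_of {a b c d : ℕ} (hs : a + b + c + d ≤ 6)
    (ha : a = 1 → (b + c + d) % 2 = 0 ∧ b ≤ 2 ∧ c ≤ 2 ∧ d ≤ 2)
    (hb : b = 1 → (a + c + d) % 2 = 0 ∧ a ≤ 2 ∧ c ≤ 2 ∧ d ≤ 2)
    (hc : c = 1 → (a + b + d) % 2 = 0 ∧ a ≤ 2 ∧ b ≤ 2 ∧ d ≤ 2)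
    (hd : d = 1 → (a + b + c) % 2 = 0 ∧ a ≤ 2 ∧ b ≤ 2 ∧ c ≤ 2) : okLine a b c d = true := by
  have ha6 : a ≤ 6 := by omega
  have hb6 : b ≤ 6 := by omega
  have hc6 : c ≤ 6 := by omega
  have hd6 : d ≤ 6 := by omega
  unfold okLine has
  by_cases h1 : a = 1 ∨ b = 1 ∨ c = 1 ∨ d = 1
  · have hodd : (a + b + c + d) % 2 = 1 := by
      rcases h1 with h | h | h | h
      · have := (ha h).1; omega
      · have := (hb h).1; omega
      · have := (hc h).1; omega
      · have := (hd h).1; omega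
    have h3 : a ≤ 2 ∧ b ≤ 2 ∧ c ≤ 2 ∧ d ≤ 2 := by
      rcases h1 with h | h | h | h
      · have := (ha h).2; omega
      · have := (hb h).2; omega
      · have := (hc h).2; omega
      · have := (hd h).2; omega
    have e1 : Nat.ble (a + b + c + d) 6 = true := by rw [Nat.ble_eq]; exact hs
    have e2 : Nat.beq ((a + b + c + d) % 2) 1 = true := by rw [Nat.beq_eq]; exact hodd
    have e3 : ∀ t, t ≤ 2 → Nat.beq t 3 = false := by
      intro t ht; interval_cases t <;> rfl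
    rw [e1, e2, e3 a h3.1, e3 b h3.2.1, e3 c h3.2.2.1, e3 d h3.2.2.2]
    simp
  · push Not at h1
    have e1 : Nat.ble (a + b + c + d) 6 = true := by rw [Nat.ble_eq]; exact hs
    have e3 : ∀ t, t ≠ 1 → Nat.beq t 1 = false := by
      intro t ht
      rw [← Bool.not_eq_true, Nat.beq_eq]; exact ht
    rw [e1, e3 a h1.1, e3 b h1.2.1, e3 c h1.2.2.1, e3 d h1.2.2.2]
    simp

theorem nosol2 (c0 c1 c2 c3 c4 c5 c6 c7 c8 c9 c10 c11 c12 : ℕ)
    (hs : c0 + c1 + c2 + c3 + c4 + c5 + c6 + c7 + c8 + c9 + c10 + c11 + c12 = 13)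
    (m0 : c1 + c4 + c7 + c10 ≤ 6)
    (m1 : c0 + c4 + c5 + c6 ≤ 6)
    (m2 : c3 + c4 + c9 + c11 ≤ 6)
    (m3 : c2 + c4 + c8 + c12 ≤ 6)
    (m4 : c0 + c1 + c2 + c3 ≤ 6)
    (m5 : c1 + c6 + c9 + c12 ≤ 6)
    (m6 : c1 + c5 + c8 + c11 ≤ 6)
    (m7 : c0 + c10 + c11 + c12 ≤ 6)
    (m8 : c3 + c6 + c8 + c10 ≤ 6)
    (m9 : c2 + c5 + c9 + c10 ≤ 6)
    (m10 : c0 + c7 + c8 + c9 ≤ 6)
    (m11 : c2 + c6 + c7 + c11 ≤ 6)
    (m12 : c3 + c5 + c7 + c12 ≤ 6)
    (p0 : PtOK c0 c4 c5 c6 c1 c2 c3 c10 c11 c12 c7 c8 c9)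
    (p1 : PtOK c1 c4 c7 c10 c0 c2 c3 c6 c9 c12 c5 c8 c11)
    (p2 : PtOK c2 c4 c8 c12 c0 c1 c3 c5 c9 c10 c6 c7 c11)
    (p3 : PtOK c3 c4 c9 c11 c0 c1 c2 c6 c8 c10 c5 c7 c12)
    (p4 : PtOK c4 c1 c7 c10 c0 c5 c6 c3 c9 c11 c2 c8 c12)
    (p5 : PtOK c5 c0 c4 c6 c1 c8 c11 c2 c9 c10 c3 c7 c12)
    (p6 : PtOK c6 c0 c4 c5 c1 c9 c12 c3 c8 c10 c2 c7 c11)
    (p7 : PtOK c7 c1 c4 c10 c0 c8 c9 c2 c6 c11 c3 c5 c12)
    (p8 : PtOK c8 c2 c4 c12 c1 c5 c11 c3 c6 c10 c0 c7 c9)
    (p9 : PtOK c9 c3 c4 c11 c1 c6 c12 c2 c5 c10 c0 c7 c8)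
    (p10 : PtOK c10 c1 c4 c7 c0 c11 c12 c3 c6 c8 c2 c5 c9)
    (p11 : PtOK c11 c3 c4 c9 c1 c5 c8 c0 c10 c12 c2 c6 c7)
    (p12 : PtOK c12 c2 c4 c8 c1 c6 c9 c0 c10 c11 c3 c5 c7)
    : False := by
  have h0 : c0 ≤ 3 := by
    clear p0 p1 p2 p3 p4 p5 p6 p7 p8 p9 p10 p11 p12
    clear m0 m2 m3 m5 m6 m8 m9 m11 m12
    omega
  have h1 : c1 ≤ 3 := by
    clear p0 p1 p2 p3 p4 p5 p6 p7 p8 p9 p10 p11 p12
    clear m1 m2 m3 m7 m8 m9 m10 m11 m12
    clear h0
    omega
  have h2 : c2 ≤ 3 := by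
    clear p0 p1 p2 p3 p4 p5 p6 p7 p8 p9 p10 p11 p12
    clear m0 m1 m2 m5 m6 m7 m8 m10 m12
    clear h0 h1
    omega
  have h3 : c3 ≤ 3 := by
    clear p0 p1 p2 p3 p4 p5 p6 p7 p8 p9 p10 p11 p12
    clear m0 m1 m3 m5 m6 m7 m9 m10 m11
    clear h0 h1 h2
    omega
  have h4 : c4 ≤ 3 := by
    clear p0 p1 p2 p3 p4 p5 p6 p7 p8 p9 p10 p11 p12
    clear m4 m5 m6 m7 m8 m9 m10 m11 m12
    clear h0 h1 h2 h3
    omega
  have h5 : c5 ≤ 3 := by
    clear p0 p1 p2 p3 p4 p5 p6 p7 p8 p9 p10 p11 p12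
    clear m0 m2 m3 m4 m5 m7 m8 m10 m11
    clear h0 h1 h2 h3 h4
    omega
  have h6 : c6 ≤ 3 := by
    clear p0 p1 p2 p3 p4 p5 p6 p7 p8 p9 p10 p11 p12
    clear m0 m2 m3 m4 m6 m7 m9 m10 m12
    clear h0 h1 h2 h3 h4 h5
    omega
  have h7 : c7 ≤ 3 := by
    clear p0 p1 p2 p3 p4 p5 p6 p7 p8 p9 p10 p11 p12
    clear m1 m2 m3 m4 m5 m6 m7 m8 m9
    clear h0 h1 h2 h3 h4 h5 h6
    omega
  have h8 : c8 ≤ 3 := by
    clear p0 p1 p2 p3 p4 p5 p6 p7 p8 p9 p10 p11 p12
    clear m0 m1 m2 m4 m5 m7 m9 m11 m12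
    clear h0 h1 h2 h3 h4 h5 h6 h7
    omega
  have h9 : c9 ≤ 3 := by
    clear p0 p1 p2 p3 p4 p5 p6 p7 p8 p9 p10 p11 p12
    clear m0 m1 m3 m4 m6 m7 m8 m11 m12
    clear h0 h1 h2 h3 h4 h5 h6 h7 h8
    omega
  have h10 : c10 ≤ 3 := by
    clear p0 p1 p2 p3 p4 p5 p6 p7 p8 p9 p10 p11 p12
    clear m1 m2 m3 m4 m5 m6 m10 m11 m12
    clear h0 h1 h2 h3 h4 h5 h6 h7 h8 h9
    omega
  have h11 : c11 ≤ 3 := by
    clear p0 p1 p2 p3 p4 p5 p6 p7 p8 p9 p10 p11 p12
    clear m0 m1 m3 m4 m5 m8 m9 m10 m12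
    clear h0 h1 h2 h3 h4 h5 h6 h7 h8 h9 h10
    omega
  have h12 : c12 ≤ 3 := by
    clear p0 p1 p2 p3 p4 p5 p6 p7 p8 p9 p10 p11 p12
    clear m0 m1 m2 m4 m6 m8 m9 m10 m11
    clear h0 h1 h2 h3 h4 h5 h6 h7 h8 h9 h10 h11
    omega
  have q0 := ptok_par p0 (by clear p0 p1 p2 p3 p4 p5 p6 p7 p8 p9 p10 p11 p12; clear m0 m1 m2 m3 m4 m5 m6 m7 m8 m9 m10 m11 m12; clear h0 h1 h2 h3 h4 h5 h6 h7 h8 h9 h10 h11 h12; omega)
    (by clear p0 p1 p2 p3 p4 p5 p6 p7 p8 p9 p10 p11 p12; clear m0 m2 m3 m4 m5 m6 m7 m8 m9 m10 m11 m12; clear h0 h1 h2 h3 h4 h5 h6 h7 h8 h9 h10 h11 h12; clear hs; omega)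
    (by clear p0 p1 p2 p3 p4 p5 p6 p7 p8 p9 p10 p11 p12; clear m0 m1 m2 m3 m5 m6 m7 m8 m9 m10 m11 m12; clear h0 h1 h2 h3 h4 h5 h6 h7 h8 h9 h10 h11 h12; clear hs; omega)
    (by clear p0 p1 p2 p3 p4 p5 p6 p7 p8 p9 p10 p11 p12; clear m0 m1 m2 m3 m4 m5 m6 m8 m9 m10 m11 m12; clear h0 h1 h2 h3 h4 h5 h6 h7 h8 h9 h10 h11 h12; clear hs; omega)
    (by clear p0 p1 p2 p3 p4 p5 p6 p7 p8 p9 p10 p11 p12; clear m0 m1 m2 m3 m4 m5 m6 m7 m8 m9 m11 m12; clear h0 h1 h2 h3 h4 h5 h6 h7 h8 h9 h10 h11 h12; clear hs; omega)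
  have q1 := ptok_par p1 (by clear p0 p1 p2 p3 p4 p5 p6 p7 p8 p9 p10 p11 p12; clear m0 m1 m2 m3 m4 m5 m6 m7 m8 m9 m10 m11 m12; clear q0; clear h0 h1 h2 h3 h4 h5 h6 h7 h8 h9 h10 h11 h12; omega)
    (by clear p0 p1 p2 p3 p4 p5 p6 p7 p8 p9 p10 p11 p12; clear m1 m2 m3 m4 m5 m6 m7 m8 m9 m10 m11 m12; clear q0; clear h0 h1 h2 h3 h4 h5 h6 h7 h8 h9 h10 h11 h12; clear hs; omega)
    (by clear p0 p1 p2 p3 p4 p5 p6 p7 p8 p9 p10 p11 p12; clear m0 m1 m2 m3 m5 m6 m7 m8 m9 m10 m11 m12; clear q0; clear h0 h1 h2 h3 h4 h5 h6 h7 h8 h9 h10 h11 h12; clear hs; omega)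
    (by clear p0 p1 p2 p3 p4 p5 p6 p7 p8 p9 p10 p11 p12; clear m0 m1 m2 m3 m4 m6 m7 m8 m9 m10 m11 m12; clear q0; clear h0 h1 h2 h3 h4 h5 h6 h7 h8 h9 h10 h11 h12; clear hs; omega)
    (by clear p0 p1 p2 p3 p4 p5 p6 p7 p8 p9 p10 p11 p12; clear m0 m1 m2 m3 m4 m5 m7 m8 m9 m10 m11 m12; clear q0; clear h0 h1 h2 h3 h4 h5 h6 h7 h8 h9 h10 h11 h12; clear hs; omega)
  have q2 := ptok_par p2 (by clear p0 p1 p2 p3 p4 p5 p6 p7 p8 p9 p10 p11 p12; clear m0 m1 m2 m3 m4 m5 m6 m7 m8 m9 m10 m11 m12; clear q0 q1; clear h0 h1 h2 h3 h4 h5 h6 h7 h8 h9 h10 h11 h12; omega)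
    (by clear p0 p1 p2 p3 p4 p5 p6 p7 p8 p9 p10 p11 p12; clear m0 m1 m2 m4 m5 m6 m7 m8 m9 m10 m11 m12; clear q0 q1; clear h0 h1 h2 h3 h4 h5 h6 h7 h8 h9 h10 h11 h12; clear hs; omega)
    (by clear p0 p1 p2 p3 p4 p5 p6 p7 p8 p9 p10 p11 p12; clear m0 m1 m2 m3 m5 m6 m7 m8 m9 m10 m11 m12; clear q0 q1; clear h0 h1 h2 h3 h4 h5 h6 h7 h8 h9 h10 h11 h12; clear hs; omega)
    (by clear p0 p1 p2 p3 p4 p5 p6 p7 p8 p9 p10 p11 p12; clear m0 m1 m2 m3 m4 m5 m6 m7 m8 m10 m11 m12; clear q0 q1; clear h0 h1 h2 h3 h4 h5 h6 h7 h8 h9 h10 h11 h12; clear hs; omega)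
    (by clear p0 p1 p2 p3 p4 p5 p6 p7 p8 p9 p10 p11 p12; clear m0 m1 m2 m3 m4 m5 m6 m7 m8 m9 m10 m12; clear q0 q1; clear h0 h1 h2 h3 h4 h5 h6 h7 h8 h9 h10 h11 h12; clear hs; omega)
  have q3 := ptok_par p3 (by clear p0 p1 p2 p3 p4 p5 p6 p7 p8 p9 p10 p11 p12; clear m0 m1 m2 m3 m4 m5 m6 m7 m8 m9 m10 m11 m12; clear q0 q1 q2; clear h0 h1 h2 h3 h4 h5 h6 h7 h8 h9 h10 h11 h12; omega)
    (by clear p0 p1 p2 p3 p4 p5 p6 p7 p8 p9 p10 p11 p12; clear m0 m1 m3 m4 m5 m6 m7 m8 m9 m10 m11 m12; clear q0 q1 q2; clear h0 h1 h2 h3 h4 h5 h6 h7 h8 h9 h10 h11 h12; clear hs; omega)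
    (by clear p0 p1 p2 p3 p4 p5 p6 p7 p8 p9 p10 p11 p12; clear m0 m1 m2 m3 m5 m6 m7 m8 m9 m10 m11 m12; clear q0 q1 q2; clear h0 h1 h2 h3 h4 h5 h6 h7 h8 h9 h10 h11 h12; clear hs; omega)
    (by clear p0 p1 p2 p3 p4 p5 p6 p7 p8 p9 p10 p11 p12; clear m0 m1 m2 m3 m4 m5 m6 m7 m9 m10 m11 m12; clear q0 q1 q2; clear h0 h1 h2 h3 h4 h5 h6 h7 h8 h9 h10 h11 h12; clear hs; omega)
    (by clear p0 p1 p2 p3 p4 p5 p6 p7 p8 p9 p10 p11 p12; clear m0 m1 m2 m3 m4 m5 m6 m7 m8 m9 m10 m11; clear q0 q1 q2; clear h0 h1 h2 h3 h4 h5 h6 h7 h8 h9 h10 h11 h12; clear hs; omega)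
  have q4 := ptok_par p4 (by clear p0 p1 p2 p3 p4 p5 p6 p7 p8 p9 p10 p11 p12; clear m0 m1 m2 m3 m4 m5 m6 m7 m8 m9 m10 m11 m12; clear q0 q1 q2 q3; clear h0 h1 h2 h3 h4 h5 h6 h7 h8 h9 h10 h11 h12; omega)
    (by clear p0 p1 p2 p3 p4 p5 p6 p7 p8 p9 p10 p11 p12; clear m1 m2 m3 m4 m5 m6 m7 m8 m9 m10 m11 m12; clear q0 q1 q2 q3; clear h0 h1 h2 h3 h4 h5 h6 h7 h8 h9 h10 h11 h12; clear hs; omega)
    (by clear p0 p1 p2 p3 p4 p5 p6 p7 p8 p9 p10 p11 p12; clear m0 m2 m3 m4 m5 m6 m7 m8 m9 m10 m11 m12; clear q0 q1 q2 q3; clear h0 h1 h2 h3 h4 h5 h6 h7 h8 h9 h10 h11 h12; clear hs; omega)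
    (by clear p0 p1 p2 p3 p4 p5 p6 p7 p8 p9 p10 p11 p12; clear m0 m1 m3 m4 m5 m6 m7 m8 m9 m10 m11 m12; clear q0 q1 q2 q3; clear h0 h1 h2 h3 h4 h5 h6 h7 h8 h9 h10 h11 h12; clear hs; omega)
    (by clear p0 p1 p2 p3 p4 p5 p6 p7 p8 p9 p10 p11 p12; clear m0 m1 m2 m4 m5 m6 m7 m8 m9 m10 m11 m12; clear q0 q1 q2 q3; clear h0 h1 h2 h3 h4 h5 h6 h7 h8 h9 h10 h11 h12; clear hs; omega)
  have q5 := ptok_par p5 (by clear p0 p1 p2 p3 p4 p5 p6 p7 p8 p9 p10 p11 p12; clear m0 m1 m2 m3 m4 m5 m6 m7 m8 m9 m10 m11 m12; clear q0 q1 q2 q3 q4; clear h0 h1 h2 h3 h4 h5 h6 h7 h8 h9 h10 h11 h12; omega)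
    (by clear p0 p1 p2 p3 p4 p5 p6 p7 p8 p9 p10 p11 p12; clear m0 m2 m3 m4 m5 m6 m7 m8 m9 m10 m11 m12; clear q0 q1 q2 q3 q4; clear h0 h1 h2 h3 h4 h5 h6 h7 h8 h9 h10 h11 h12; clear hs; omega)
    (by clear p0 p1 p2 p3 p4 p5 p6 p7 p8 p9 p10 p11 p12; clear m0 m1 m2 m3 m4 m5 m7 m8 m9 m10 m11 m12; clear q0 q1 q2 q3 q4; clear h0 h1 h2 h3 h4 h5 h6 h7 h8 h9 h10 h11 h12; clear hs; omega)
    (by clear p0 p1 p2 p3 p4 p5 p6 p7 p8 p9 p10 p11 p12; clear m0 m1 m2 m3 m4 m5 m6 m7 m8 m10 m11 m12; clear q0 q1 q2 q3 q4; clear h0 h1 h2 h3 h4 h5 h6 h7 h8 h9 h10 h11 h12; clear hs; omega)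
    (by clear p0 p1 p2 p3 p4 p5 p6 p7 p8 p9 p10 p11 p12; clear m0 m1 m2 m3 m4 m5 m6 m7 m8 m9 m10 m11; clear q0 q1 q2 q3 q4; clear h0 h1 h2 h3 h4 h5 h6 h7 h8 h9 h10 h11 h12; clear hs; omega)
  have q6 := ptok_par p6 (by clear p0 p1 p2 p3 p4 p5 p6 p7 p8 p9 p10 p11 p12; clear m0 m1 m2 m3 m4 m5 m6 m7 m8 m9 m10 m11 m12; clear q0 q1 q2 q3 q4 q5; clear h0 h1 h2 h3 h4 h5 h6 h7 h8 h9 h10 h11 h12; omega)
    (by clear p0 p1 p2 p3 p4 p5 p6 p7 p8 p9 p10 p11 p12; clear m0 m2 m3 m4 m5 m6 m7 m8 m9 m10 m11 m12; clear q0 q1 q2 q3 q4 q5; clear h0 h1 h2 h3 h4 h5 h6 h7 h8 h9 h10 h11 h12; clear hs; omega)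
    (by clear p0 p1 p2 p3 p4 p5 p6 p7 p8 p9 p10 p11 p12; clear m0 m1 m2 m3 m4 m6 m7 m8 m9 m10 m11 m12; clear q0 q1 q2 q3 q4 q5; clear h0 h1 h2 h3 h4 h5 h6 h7 h8 h9 h10 h11 h12; clear hs; omega)
    (by clear p0 p1 p2 p3 p4 p5 p6 p7 p8 p9 p10 p11 p12; clear m0 m1 m2 m3 m4 m5 m6 m7 m9 m10 m11 m12; clear q0 q1 q2 q3 q4 q5; clear h0 h1 h2 h3 h4 h5 h6 h7 h8 h9 h10 h11 h12; clear hs; omega)
    (by clear p0 p1 p2 p3 p4 p5 p6 p7 p8 p9 p10 p11 p12; clear m0 m1 m2 m3 m4 m5 m6 m7 m8 m9 m10 m12; clear q0 q1 q2 q3 q4 q5; clear h0 h1 h2 h3 h4 h5 h6 h7 h8 h9 h10 h11 h12; clear hs; omega)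
  have q7 := ptok_par p7 (by clear p0 p1 p2 p3 p4 p5 p6 p7 p8 p9 p10 p11 p12; clear m0 m1 m2 m3 m4 m5 m6 m7 m8 m9 m10 m11 m12; clear q0 q1 q2 q3 q4 q5 q6; clear h0 h1 h2 h3 h4 h5 h6 h7 h8 h9 h10 h11 h12; omega)
    (by clear p0 p1 p2 p3 p4 p5 p6 p7 p8 p9 p10 p11 p12; clear m1 m2 m3 m4 m5 m6 m7 m8 m9 m10 m11 m12; clear q0 q1 q2 q3 q4 q5 q6; clear h0 h1 h2 h3 h4 h5 h6 h7 h8 h9 h10 h11 h12; clear hs; omega)
    (by clear p0 p1 p2 p3 p4 p5 p6 p7 p8 p9 p10 p11 p12; clear m0 m1 m2 m3 m4 m5 m6 m7 m8 m9 m11 m12; clear q0 q1 q2 q3 q4 q5 q6; clear h0 h1 h2 h3 h4 h5 h6 h7 h8 h9 h10 h11 h12; clear hs; omega)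
    (by clear p0 p1 p2 p3 p4 p5 p6 p7 p8 p9 p10 p11 p12; clear m0 m1 m2 m3 m4 m5 m6 m7 m8 m9 m10 m12; clear q0 q1 q2 q3 q4 q5 q6; clear h0 h1 h2 h3 h4 h5 h6 h7 h8 h9 h10 h11 h12; clear hs; omega)
    (by clear p0 p1 p2 p3 p4 p5 p6 p7 p8 p9 p10 p11 p12; clear m0 m1 m2 m3 m4 m5 m6 m7 m8 m9 m10 m11; clear q0 q1 q2 q3 q4 q5 q6; clear h0 h1 h2 h3 h4 h5 h6 h7 h8 h9 h10 h11 h12; clear hs; omega)
  have q8 := ptok_par p8 (by clear p0 p1 p2 p3 p4 p5 p6 p7 p8 p9 p10 p11 p12; clear m0 m1 m2 m3 m4 m5 m6 m7 m8 m9 m10 m11 m12; clear q0 q1 q2 q3 q4 q5 q6 q7; clear h0 h1 h2 h3 h4 h5 h6 h7 h8 h9 h10 h11 h12; omega)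
    (by clear p0 p1 p2 p3 p4 p5 p6 p7 p8 p9 p10 p11 p12; clear m0 m1 m2 m4 m5 m6 m7 m8 m9 m10 m11 m12; clear q0 q1 q2 q3 q4 q5 q6 q7; clear h0 h1 h2 h3 h4 h5 h6 h7 h8 h9 h10 h11 h12; clear hs; omega)
    (by clear p0 p1 p2 p3 p4 p5 p6 p7 p8 p9 p10 p11 p12; clear m0 m1 m2 m3 m4 m5 m7 m8 m9 m10 m11 m12; clear q0 q1 q2 q3 q4 q5 q6 q7; clear h0 h1 h2 h3 h4 h5 h6 h7 h8 h9 h10 h11 h12; clear hs; omega)
    (by clear p0 p1 p2 p3 p4 p5 p6 p7 p8 p9 p10 p11 p12; clear m0 m1 m2 m3 m4 m5 m6 m7 m9 m10 m11 m12; clear q0 q1 q2 q3 q4 q5 q6 q7; clear h0 h1 h2 h3 h4 h5 h6 h7 h8 h9 h10 h11 h12; clear hs; omega)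
    (by clear p0 p1 p2 p3 p4 p5 p6 p7 p8 p9 p10 p11 p12; clear m0 m1 m2 m3 m4 m5 m6 m7 m8 m9 m11 m12; clear q0 q1 q2 q3 q4 q5 q6 q7; clear h0 h1 h2 h3 h4 h5 h6 h7 h8 h9 h10 h11 h12; clear hs; omega)
  have q9 := ptok_par p9 (by clear p0 p1 p2 p3 p4 p5 p6 p7 p8 p9 p10 p11 p12; clear m0 m1 m2 m3 m4 m5 m6 m7 m8 m9 m10 m11 m12; clear q0 q1 q2 q3 q4 q5 q6 q7 q8; clear h0 h1 h2 h3 h4 h5 h6 h7 h8 h9 h10 h11 h12; omega)
    (by clear p0 p1 p2 p3 p4 p5 p6 p7 p8 p9 p10 p11 p12; clear m0 m1 m3 m4 m5 m6 m7 m8 m9 m10 m11 m12; clear q0 q1 q2 q3 q4 q5 q6 q7 q8; clear h0 h1 h2 h3 h4 h5 h6 h7 h8 h9 h10 h11 h12; clear hs; omega)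
    (by clear p0 p1 p2 p3 p4 p5 p6 p7 p8 p9 p10 p11 p12; clear m0 m1 m2 m3 m4 m6 m7 m8 m9 m10 m11 m12; clear q0 q1 q2 q3 q4 q5 q6 q7 q8; clear h0 h1 h2 h3 h4 h5 h6 h7 h8 h9 h10 h11 h12; clear hs; omega)
    (by clear p0 p1 p2 p3 p4 p5 p6 p7 p8 p9 p10 p11 p12; clear m0 m1 m2 m3 m4 m5 m6 m7 m8 m10 m11 m12; clear q0 q1 q2 q3 q4 q5 q6 q7 q8; clear h0 h1 h2 h3 h4 h5 h6 h7 h8 h9 h10 h11 h12; clear hs; omega)
    (by clear p0 p1 p2 p3 p4 p5 p6 p7 p8 p9 p10 p11 p12; clear m0 m1 m2 m3 m4 m5 m6 m7 m8 m9 m11 m12; clear q0 q1 q2 q3 q4 q5 q6 q7 q8; clear h0 h1 h2 h3 h4 h5 h6 h7 h8 h9 h10 h11 h12; clear hs; omega)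
  have q10 := ptok_par p10 (by clear p0 p1 p2 p3 p4 p5 p6 p7 p8 p9 p10 p11 p12; clear m0 m1 m2 m3 m4 m5 m6 m7 m8 m9 m10 m11 m12; clear q0 q1 q2 q3 q4 q5 q6 q7 q8 q9; clear h0 h1 h2 h3 h4 h5 h6 h7 h8 h9 h10 h11 h12; omega)
    (by clear p0 p1 p2 p3 p4 p5 p6 p7 p8 p9 p10 p11 p12; clear m1 m2 m3 m4 m5 m6 m7 m8 m9 m10 m11 m12; clear q0 q1 q2 q3 q4 q5 q6 q7 q8 q9; clear h0 h1 h2 h3 h4 h5 h6 h7 h8 h9 h10 h11 h12; clear hs; omega)
    (by clear p0 p1 p2 p3 p4 p5 p6 p7 p8 p9 p10 p11 p12; clear m0 m1 m2 m3 m4 m5 m6 m8 m9 m10 m11 m12; clear q0 q1 q2 q3 q4 q5 q6 q7 q8 q9; clear h0 h1 h2 h3 h4 h5 h6 h7 h8 h9 h10 h11 h12; clear hs; omega)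
    (by clear p0 p1 p2 p3 p4 p5 p6 p7 p8 p9 p10 p11 p12; clear m0 m1 m2 m3 m4 m5 m6 m7 m9 m10 m11 m12; clear q0 q1 q2 q3 q4 q5 q6 q7 q8 q9; clear h0 h1 h2 h3 h4 h5 h6 h7 h8 h9 h10 h11 h12; clear hs; omega)
    (by clear p0 p1 p2 p3 p4 p5 p6 p7 p8 p9 p10 p11 p12; clear m0 m1 m2 m3 m4 m5 m6 m7 m8 m10 m11 m12; clear q0 q1 q2 q3 q4 q5 q6 q7 q8 q9; clear h0 h1 h2 h3 h4 h5 h6 h7 h8 h9 h10 h11 h12; clear hs; omega)
  have q11 := ptok_par p11 (by clear p0 p1 p2 p3 p4 p5 p6 p7 p8 p9 p10 p11 p12; clear m0 m1 m2 m3 m4 m5 m6 m7 m8 m9 m10 m11 m12; clear q0 q1 q2 q3 q4 q5 q6 q7 q8 q9 q10; clear h0 h1 h2 h3 h4 h5 h6 h7 h8 h9 h10 h11 h12; omega)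
    (by clear p0 p1 p2 p3 p4 p5 p6 p7 p8 p9 p10 p11 p12; clear m0 m1 m3 m4 m5 m6 m7 m8 m9 m10 m11 m12; clear q0 q1 q2 q3 q4 q5 q6 q7 q8 q9 q10; clear h0 h1 h2 h3 h4 h5 h6 h7 h8 h9 h10 h11 h12; clear hs; omega)
    (by clear p0 p1 p2 p3 p4 p5 p6 p7 p8 p9 p10 p11 p12; clear m0 m1 m2 m3 m4 m5 m7 m8 m9 m10 m11 m12; clear q0 q1 q2 q3 q4 q5 q6 q7 q8 q9 q10; clear h0 h1 h2 h3 h4 h5 h6 h7 h8 h9 h10 h11 h12; clear hs; omega)
    (by clear p0 p1 p2 p3 p4 p5 p6 p7 p8 p9 p10 p11 p12; clear m0 m1 m2 m3 m4 m5 m6 m8 m9 m10 m11 m12; clear q0 q1 q2 q3 q4 q5 q6 q7 q8 q9 q10; clear h0 h1 h2 h3 h4 h5 h6 h7 h8 h9 h10 h11 h12; clear hs; omega)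
    (by clear p0 p1 p2 p3 p4 p5 p6 p7 p8 p9 p10 p11 p12; clear m0 m1 m2 m3 m4 m5 m6 m7 m8 m9 m10 m12; clear q0 q1 q2 q3 q4 q5 q6 q7 q8 q9 q10; clear h0 h1 h2 h3 h4 h5 h6 h7 h8 h9 h10 h11 h12; clear hs; omega)
  have q12 := ptok_par p12 (by clear p0 p1 p2 p3 p4 p5 p6 p7 p8 p9 p10 p11 p12; clear m0 m1 m2 m3 m4 m5 m6 m7 m8 m9 m10 m11 m12; clear q0 q1 q2 q3 q4 q5 q6 q7 q8 q9 q10 q11; clear h0 h1 h2 h3 h4 h5 h6 h7 h8 h9 h10 h11 h12; omega)
    (by clear p0 p1 p2 p3 p4 p5 p6 p7 p8 p9 p10 p11 p12; clear m0 m1 m2 m4 m5 m6 m7 m8 m9 m10 m11 m12; clear q0 q1 q2 q3 q4 q5 q6 q7 q8 q9 q10 q11; clear h0 h1 h2 h3 h4 h5 h6 h7 h8 h9 h10 h11 h12; clear hs; omega)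
    (by clear p0 p1 p2 p3 p4 p5 p6 p7 p8 p9 p10 p11 p12; clear m0 m1 m2 m3 m4 m6 m7 m8 m9 m10 m11 m12; clear q0 q1 q2 q3 q4 q5 q6 q7 q8 q9 q10 q11; clear h0 h1 h2 h3 h4 h5 h6 h7 h8 h9 h10 h11 h12; clear hs; omega)
    (by clear p0 p1 p2 p3 p4 p5 p6 p7 p8 p9 p10 p11 p12; clear m0 m1 m2 m3 m4 m5 m6 m8 m9 m10 m11 m12; clear q0 q1 q2 q3 q4 q5 q6 q7 q8 q9 q10 q11; clear h0 h1 h2 h3 h4 h5 h6 h7 h8 h9 h10 h11 h12; clear hs; omega)
    (by clear p0 p1 p2 p3 p4 p5 p6 p7 p8 p9 p10 p11 p12; clear m0 m1 m2 m3 m4 m5 m6 m7 m8 m9 m10 m11; clear q0 q1 q2 q3 q4 q5 q6 q7 q8 q9 q10 q11; clear h0 h1 h2 h3 h4 h5 h6 h7 h8 h9 h10 h11 h12; clear hs; omega)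
  have l0 : okLine c1 c4 c7 c10 = true := okLine_of m0 (fun h => (q1 h).1) (fun h => (q4 h).1) (fun h => (q7 h).1) (fun h => (q10 h).1)
  have l1 : okLine c0 c4 c5 c6 = true := okLine_of m1 (fun h => (q0 h).1) (fun h => (q4 h).2.1) (fun h => (q5 h).1) (fun h => (q6 h).1)
  have l2 : okLine c3 c4 c9 c11 = true := okLine_of m2 (fun h => (q3 h).1) (fun h => (q4 h).2.2.1) (fun h => (q9 h).1) (fun h => (q11 h).1)
  have l3 : okLine c2 c4 c8 c12 = true := okLine_of m3 (fun h => (q2 h).1) (fun h => (q4 h).2.2.2) (fun h => (q8 h).1) (fun h => (q12 h).1)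
  have l4 : okLine c0 c1 c2 c3 = true := okLine_of m4 (fun h => (q0 h).2.1) (fun h => (q1 h).2.1) (fun h => (q2 h).2.1) (fun h => (q3 h).2.1)
  have l5 : okLine c1 c6 c9 c12 = true := okLine_of m5 (fun h => (q1 h).2.2.1) (fun h => (q6 h).2.1) (fun h => (q9 h).2.1) (fun h => (q12 h).2.1)
  have l6 : okLine c1 c5 c8 c11 = true := okLine_of m6 (fun h => (q1 h).2.2.2) (fun h => (q5 h).2.1) (fun h => (q8 h).2.1) (fun h => (q11 h).2.1)
  have l7 : okLine c0 c10 c11 c12 = true := okLine_of m7 (fun h => (q0 h).2.2.1) (fun h => (q10 h).2.1) (fun h => (q11 h).2.2.1) (fun h => (q12 h).2.2.1)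
  have l8 : okLine c3 c6 c8 c10 = true := okLine_of m8 (fun h => (q3 h).2.2.1) (fun h => (q6 h).2.2.1) (fun h => (q8 h).2.2.1) (fun h => (q10 h).2.2.1)
  have l9 : okLine c2 c5 c9 c10 = true := okLine_of m9 (fun h => (q2 h).2.2.1) (fun h => (q5 h).2.2.1) (fun h => (q9 h).2.2.1) (fun h => (q10 h).2.2.2)
  have l10 : okLine c0 c7 c8 c9 = true := okLine_of m10 (fun h => (q0 h).2.2.2) (fun h => (q7 h).2.1) (fun h => (q8 h).2.2.2) (fun h => (q9 h).2.2.2)
  have l11 : okLine c2 c6 c7 c11 = true := okLine_of m11 (fun h => (q2 h).2.2.2) (fun h => (q6 h).2.2.2) (fun h => (q7 h).2.2.1) (fun h => (q11 h).2.2.2)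
  have l12 : okLine c3 c5 c7 c12 = true := okLine_of m12 (fun h => (q3 h).2.2.2) (fun h => (q5 h).2.2.2) (fun h => (q7 h).2.2.2) (fun h => (q12 h).2.2.2)
  exact nosol c0 c1 c2 c3 c4 c5 c6 c7 c8 c9 c10 c11 c12 h0 h1 h2 h3 h4 h5 h6 h7 h8 h9 h10 h11 h12 hs l0 l1 l2 l3 l4 l5 l6 l7 l8 l9 l10 l11 l12 (ptok_viol p0) (ptok_viol p1) (ptok_viol p2) (ptok_viol p3) (ptok_viol p4) (ptok_viol p5) (ptok_viol p6) (ptok_viol p7) (ptok_viol p8) (ptok_viol p9) (ptok_viol p10) (ptok_viol p11) (ptok_viol p12)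

theorem Ln0 : Ln 0 = {1, 4, 7, 10} := by decide +kernel
theorem Ln1 : Ln 1 = {0, 4, 5, 6} := by decide +kernel
theorem Ln2 : Ln 2 = {3, 4, 9, 11} := by decide +kernel
theorem Ln3 : Ln 3 = {2, 4, 8, 12} := by decide +kernel
theorem Ln4 : Ln 4 = {0, 1, 2, 3} := by decide +kernel
theorem Ln5 : Ln 5 = {1, 6, 9, 12} := by decide +kernel
theorem Ln6 : Ln 6 = {1, 5, 8, 11} := by decide +kernel
theorem Ln7 : Ln 7 = {0, 10, 11, 12} := by decide +kernel
theorem Ln8 : Ln 8 = {3, 6, 8, 10} := by decide +kernel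
theorem Ln9 : Ln 9 = {2, 5, 9, 10} := by decide +kernel
theorem Ln10 : Ln 10 = {0, 7, 8, 9} := by decide +kernel
theorem Ln11 : Ln 11 = {2, 6, 7, 11} := by decide +kernel
theorem Ln12 : Ln 12 = {3, 5, 7, 12} := by decide +kernel

theorem gline0 {c : Fin 13 → ℕ} (h : Good c) : c 1 + c 4 + c 7 + c 10 ≤ 6 := by
  have := h.line 0
  rw [Ln0, Finset.sum_insert (by decide), Finset.sum_insert (by decide),
    Finset.sum_insert (by decide), Finset.sum_singleton] at this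
  omega

theorem gline1 {c : Fin 13 → ℕ} (h : Good c) : c 0 + c 4 + c 5 + c 6 ≤ 6 := by
  have := h.line 1
  rw [Ln1, Finset.sum_insert (by decide), Finset.sum_insert (by decide),
    Finset.sum_insert (by decide), Finset.sum_singleton] at this
  omega

theorem gline2 {c : Fin 13 → ℕ} (h : Good c) : c 3 + c 4 + c 9 + c 11 ≤ 6 := by
  have := h.line 2
  rw [Ln2, Finset.sum_insert (by decide), Finset.sum_insert (by decide),
    Finset.sum_insert (by decide), Finset.sum_singleton] at this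
  omega

theorem gline3 {c : Fin 13 → ℕ} (h : Good c) : c 2 + c 4 + c 8 + c 12 ≤ 6 := by
  have := h.line 3
  rw [Ln3, Finset.sum_insert (by decide), Finset.sum_insert (by decide),
    Finset.sum_insert (by decide), Finset.sum_singleton] at this
  omega

theorem gline4 {c : Fin 13 → ℕ} (h : Good c) : c 0 + c 1 + c 2 + c 3 ≤ 6 := by
  have := h.line 4
  rw [Ln4, Finset.sum_insert (by decide), Finset.sum_insert (by decide),
    Finset.sum_insert (by decide), Finset.sum_singleton] at this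
  omega

theorem gline5 {c : Fin 13 → ℕ} (h : Good c) : c 1 + c 6 + c 9 + c 12 ≤ 6 := by
  have := h.line 5
  rw [Ln5, Finset.sum_insert (by decide), Finset.sum_insert (by decide),
    Finset.sum_insert (by decide), Finset.sum_singleton] at this
  omega

theorem gline6 {c : Fin 13 → ℕ} (h : Good c) : c 1 + c 5 + c 8 + c 11 ≤ 6 := by
  have := h.line 6
  rw [Ln6, Finset.sum_insert (by decide), Finset.sum_insert (by decide),
    Finset.sum_insert (by decide), Finset.sum_singleton] at this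
  omega

theorem gline7 {c : Fin 13 → ℕ} (h : Good c) : c 0 + c 10 + c 11 + c 12 ≤ 6 := by
  have := h.line 7
  rw [Ln7, Finset.sum_insert (by decide), Finset.sum_insert (by decide),
    Finset.sum_insert (by decide), Finset.sum_singleton] at this
  omega

theorem gline8 {c : Fin 13 → ℕ} (h : Good c) : c 3 + c 6 + c 8 + c 10 ≤ 6 := by
  have := h.line 8
  rw [Ln8, Finset.sum_insert (by decide), Finset.sum_insert (by decide),
    Finset.sum_insert (by decide), Finset.sum_singleton] at this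
  omega

theorem gline9 {c : Fin 13 → ℕ} (h : Good c) : c 2 + c 5 + c 9 + c 10 ≤ 6 := by
  have := h.line 9
  rw [Ln9, Finset.sum_insert (by decide), Finset.sum_insert (by decide),
    Finset.sum_insert (by decide), Finset.sum_singleton] at this
  omega

theorem gline10 {c : Fin 13 → ℕ} (h : Good c) : c 0 + c 7 + c 8 + c 9 ≤ 6 := by
  have := h.line 10
  rw [Ln10, Finset.sum_insert (by decide), Finset.sum_insert (by decide),
    Finset.sum_insert (by decide), Finset.sum_singleton] at this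
  omega

theorem gline11 {c : Fin 13 → ℕ} (h : Good c) : c 2 + c 6 + c 7 + c 11 ≤ 6 := by
  have := h.line 11
  rw [Ln11, Finset.sum_insert (by decide), Finset.sum_insert (by decide),
    Finset.sum_insert (by decide), Finset.sum_singleton] at this
  omega

theorem gline12 {c : Fin 13 → ℕ} (h : Good c) : c 3 + c 5 + c 7 + c 12 ≤ 6 := by
  have := h.line 12
  rw [Ln12, Finset.sum_insert (by decide), Finset.sum_insert (by decide),
    Finset.sum_insert (by decide), Finset.sum_singleton] at this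
  omega

theorem gpt0 {c : Fin 13 → ℕ} (h : Good c) :
    PtOK (c 0) (c 4) (c 5) (c 6) (c 1) (c 2) (c 3) (c 10) (c 11) (c 12) (c 7) (c 8) (c 9) := by
  by_cases h0 : c 0 = 0
  · exact Or.inl h0
  · obtain ⟨P, h8, hl⟩ := h.pairs 0 h0
    have hf : (univ.filter fun l => inc l 0 = true) = {1, 4, 7, 10} := by decide +kernel
    rw [hf, Finset.sum_insert (by decide), Finset.sum_insert (by decide),
      Finset.sum_insert (by decide), Finset.sum_singleton] at h8
    refine Or.inr ⟨P 1, P 4, P 7, P 10, by omega, ?_, ?_, ?_, ?_⟩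
    · obtain ⟨a1, a2⟩ := hl 1 (by decide +kernel)
      have he : (Ln 1).erase 0 = {4, 5, 6} := by decide +kernel
      rw [he, Finset.sum_insert (by decide), Finset.sum_insert (by decide),
        Finset.sum_singleton] at a1 a2
      have b0 := a2 4 (by decide)
      have b1 := a2 5 (by decide)
      have b2 := a2 6 (by decide)
      clear a2 hl
      omega
    · obtain ⟨a1, a2⟩ := hl 4 (by decide +kernel)
      have he : (Ln 4).erase 0 = {1, 2, 3} := by decide +kernel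
      rw [he, Finset.sum_insert (by decide), Finset.sum_insert (by decide),
        Finset.sum_singleton] at a1 a2
      have b0 := a2 1 (by decide)
      have b1 := a2 2 (by decide)
      have b2 := a2 3 (by decide)
      clear a2 hl
      omega
    · obtain ⟨a1, a2⟩ := hl 7 (by decide +kernel)
      have he : (Ln 7).erase 0 = {10, 11, 12} := by decide +kernel
      rw [he, Finset.sum_insert (by decide), Finset.sum_insert (by decide),
        Finset.sum_singleton] at a1 a2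
      have b0 := a2 10 (by decide)
      have b1 := a2 11 (by decide)
      have b2 := a2 12 (by decide)
      clear a2 hl
      omega
    · obtain ⟨a1, a2⟩ := hl 10 (by decide +kernel)
      have he : (Ln 10).erase 0 = {7, 8, 9} := by decide +kernel
      rw [he, Finset.sum_insert (by decide), Finset.sum_insert (by decide),
        Finset.sum_singleton] at a1 a2
      have b0 := a2 7 (by decide)
      have b1 := a2 8 (by decide)
      have b2 := a2 9 (by decide)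
      clear a2 hl
      omega

theorem gpt1 {c : Fin 13 → ℕ} (h : Good c) :
    PtOK (c 1) (c 4) (c 7) (c 10) (c 0) (c 2) (c 3) (c 6) (c 9) (c 12) (c 5) (c 8) (c 11) := by
  by_cases h0 : c 1 = 0
  · exact Or.inl h0
  · obtain ⟨P, h8, hl⟩ := h.pairs 1 h0
    have hf : (univ.filter fun l => inc l 1 = true) = {0, 4, 5, 6} := by decide +kernel
    rw [hf, Finset.sum_insert (by decide), Finset.sum_insert (by decide),
      Finset.sum_insert (by decide), Finset.sum_singleton] at h8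
    refine Or.inr ⟨P 0, P 4, P 5, P 6, by omega, ?_, ?_, ?_, ?_⟩
    · obtain ⟨a1, a2⟩ := hl 0 (by decide +kernel)
      have he : (Ln 0).erase 1 = {4, 7, 10} := by decide +kernel
      rw [he, Finset.sum_insert (by decide), Finset.sum_insert (by decide),
        Finset.sum_singleton] at a1 a2
      have b0 := a2 4 (by decide)
      have b1 := a2 7 (by decide)
      have b2 := a2 10 (by decide)
      clear a2 hl
      omega
    · obtain ⟨a1, a2⟩ := hl 4 (by decide +kernel)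
      have he : (Ln 4).erase 1 = {0, 2, 3} := by decide +kernel
      rw [he, Finset.sum_insert (by decide), Finset.sum_insert (by decide),
        Finset.sum_singleton] at a1 a2
      have b0 := a2 0 (by decide)
      have b1 := a2 2 (by decide)
      have b2 := a2 3 (by decide)
      clear a2 hl
      omega
    · obtain ⟨a1, a2⟩ := hl 5 (by decide +kernel)
      have he : (Ln 5).erase 1 = {6, 9, 12} := by decide +kernel
      rw [he, Finset.sum_insert (by decide), Finset.sum_insert (by decide),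
        Finset.sum_singleton] at a1 a2
      have b0 := a2 6 (by decide)
      have b1 := a2 9 (by decide)
      have b2 := a2 12 (by decide)
      clear a2 hl
      omega
    · obtain ⟨a1, a2⟩ := hl 6 (by decide +kernel)
      have he : (Ln 6).erase 1 = {5, 8, 11} := by decide +kernel
      rw [he, Finset.sum_insert (by decide), Finset.sum_insert (by decide),
        Finset.sum_singleton] at a1 a2
      have b0 := a2 5 (by decide)
      have b1 := a2 8 (by decide)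
      have b2 := a2 11 (by decide)
      clear a2 hl
      omega

theorem gpt2 {c : Fin 13 → ℕ} (h : Good c) :
    PtOK (c 2) (c 4) (c 8) (c 12) (c 0) (c 1) (c 3) (c 5) (c 9) (c 10) (c 6) (c 7) (c 11) := by
  by_cases h0 : c 2 = 0
  · exact Or.inl h0
  · obtain ⟨P, h8, hl⟩ := h.pairs 2 h0
    have hf : (univ.filter fun l => inc l 2 = true) = {3, 4, 9, 11} := by decide +kernel
    rw [hf, Finset.sum_insert (by decide), Finset.sum_insert (by decide),
      Finset.sum_insert (by decide), Finset.sum_singleton] at h8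
    refine Or.inr ⟨P 3, P 4, P 9, P 11, by omega, ?_, ?_, ?_, ?_⟩
    · obtain ⟨a1, a2⟩ := hl 3 (by decide +kernel)
      have he : (Ln 3).erase 2 = {4, 8, 12} := by decide +kernel
      rw [he, Finset.sum_insert (by decide), Finset.sum_insert (by decide),
        Finset.sum_singleton] at a1 a2
      have b0 := a2 4 (by decide)
      have b1 := a2 8 (by decide)
      have b2 := a2 12 (by decide)
      clear a2 hl
      omega
    · obtain ⟨a1, a2⟩ := hl 4 (by decide +kernel)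
      have he : (Ln 4).erase 2 = {0, 1, 3} := by decide +kernel
      rw [he, Finset.sum_insert (by decide), Finset.sum_insert (by decide),
        Finset.sum_singleton] at a1 a2
      have b0 := a2 0 (by decide)
      have b1 := a2 1 (by decide)
      have b2 := a2 3 (by decide)
      clear a2 hl
      omega
    · obtain ⟨a1, a2⟩ := hl 9 (by decide +kernel)
      have he : (Ln 9).erase 2 = {5, 9, 10} := by decide +kernel
      rw [he, Finset.sum_insert (by decide), Finset.sum_insert (by decide),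
        Finset.sum_singleton] at a1 a2
      have b0 := a2 5 (by decide)
      have b1 := a2 9 (by decide)
      have b2 := a2 10 (by decide)
      clear a2 hl
      omega
    · obtain ⟨a1, a2⟩ := hl 11 (by decide +kernel)
      have he : (Ln 11).erase 2 = {6, 7, 11} := by decide +kernel
      rw [he, Finset.sum_insert (by decide), Finset.sum_insert (by decide),
        Finset.sum_singleton] at a1 a2
      have b0 := a2 6 (by decide)
      have b1 := a2 7 (by decide)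
      have b2 := a2 11 (by decide)
      clear a2 hl
      omega

theorem gpt3 {c : Fin 13 → ℕ} (h : Good c) :
    PtOK (c 3) (c 4) (c 9) (c 11) (c 0) (c 1) (c 2) (c 6) (c 8) (c 10) (c 5) (c 7) (c 12) := by
  by_cases h0 : c 3 = 0
  · exact Or.inl h0
  · obtain ⟨P, h8, hl⟩ := h.pairs 3 h0
    have hf : (univ.filter fun l => inc l 3 = true) = {2, 4, 8, 12} := by decide +kernel
    rw [hf, Finset.sum_insert (by decide), Finset.sum_insert (by decide),
      Finset.sum_insert (by decide), Finset.sum_singleton] at h8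
    refine Or.inr ⟨P 2, P 4, P 8, P 12, by omega, ?_, ?_, ?_, ?_⟩
    · obtain ⟨a1, a2⟩ := hl 2 (by decide +kernel)
      have he : (Ln 2).erase 3 = {4, 9, 11} := by decide +kernel
      rw [he, Finset.sum_insert (by decide), Finset.sum_insert (by decide),
        Finset.sum_singleton] at a1 a2
      have b0 := a2 4 (by decide)
      have b1 := a2 9 (by decide)
      have b2 := a2 11 (by decide)
      clear a2 hl
      omega
    · obtain ⟨a1, a2⟩ := hl 4 (by decide +kernel)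
      have he : (Ln 4).erase 3 = {0, 1, 2} := by decide +kernel
      rw [he, Finset.sum_insert (by decide), Finset.sum_insert (by decide),
        Finset.sum_singleton] at a1 a2
      have b0 := a2 0 (by decide)
      have b1 := a2 1 (by decide)
      have b2 := a2 2 (by decide)
      clear a2 hl
      omega
    · obtain ⟨a1, a2⟩ := hl 8 (by decide +kernel)
      have he : (Ln 8).erase 3 = {6, 8, 10} := by decide +kernel
      rw [he, Finset.sum_insert (by decide), Finset.sum_insert (by decide),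
        Finset.sum_singleton] at a1 a2
      have b0 := a2 6 (by decide)
      have b1 := a2 8 (by decide)
      have b2 := a2 10 (by decide)
      clear a2 hl
      omega
    · obtain ⟨a1, a2⟩ := hl 12 (by decide +kernel)
      have he : (Ln 12).erase 3 = {5, 7, 12} := by decide +kernel
      rw [he, Finset.sum_insert (by decide), Finset.sum_insert (by decide),
        Finset.sum_singleton] at a1 a2
      have b0 := a2 5 (by decide)
      have b1 := a2 7 (by decide)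
      have b2 := a2 12 (by decide)
      clear a2 hl
      omega

theorem gpt4 {c : Fin 13 → ℕ} (h : Good c) :
    PtOK (c 4) (c 1) (c 7) (c 10) (c 0) (c 5) (c 6) (c 3) (c 9) (c 11) (c 2) (c 8) (c 12) := by
  by_cases h0 : c 4 = 0
  · exact Or.inl h0
  · obtain ⟨P, h8, hl⟩ := h.pairs 4 h0
    have hf : (univ.filter fun l => inc l 4 = true) = {0, 1, 2, 3} := by decide +kernel
    rw [hf, Finset.sum_insert (by decide), Finset.sum_insert (by decide),
      Finset.sum_insert (by decide), Finset.sum_singleton] at h8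
    refine Or.inr ⟨P 0, P 1, P 2, P 3, by omega, ?_, ?_, ?_, ?_⟩
    · obtain ⟨a1, a2⟩ := hl 0 (by decide +kernel)
      have he : (Ln 0).erase 4 = {1, 7, 10} := by decide +kernel
      rw [he, Finset.sum_insert (by decide), Finset.sum_insert (by decide),
        Finset.sum_singleton] at a1 a2
      have b0 := a2 1 (by decide)
      have b1 := a2 7 (by decide)
      have b2 := a2 10 (by decide)
      clear a2 hl
      omega
    · obtain ⟨a1, a2⟩ := hl 1 (by decide +kernel)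
      have he : (Ln 1).erase 4 = {0, 5, 6} := by decide +kernel
      rw [he, Finset.sum_insert (by decide), Finset.sum_insert (by decide),
        Finset.sum_singleton] at a1 a2
      have b0 := a2 0 (by decide)
      have b1 := a2 5 (by decide)
      have b2 := a2 6 (by decide)
      clear a2 hl
      omega
    · obtain ⟨a1, a2⟩ := hl 2 (by decide +kernel)
      have he : (Ln 2).erase 4 = {3, 9, 11} := by decide +kernel
      rw [he, Finset.sum_insert (by decide), Finset.sum_insert (by decide),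
        Finset.sum_singleton] at a1 a2
      have b0 := a2 3 (by decide)
      have b1 := a2 9 (by decide)
      have b2 := a2 11 (by decide)
      clear a2 hl
      omega
    · obtain ⟨a1, a2⟩ := hl 3 (by decide +kernel)
      have he : (Ln 3).erase 4 = {2, 8, 12} := by decide +kernel
      rw [he, Finset.sum_insert (by decide), Finset.sum_insert (by decide),
        Finset.sum_singleton] at a1 a2
      have b0 := a2 2 (by decide)
      have b1 := a2 8 (by decide)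
      have b2 := a2 12 (by decide)
      clear a2 hl
      omega

theorem gpt5 {c : Fin 13 → ℕ} (h : Good c) :
    PtOK (c 5) (c 0) (c 4) (c 6) (c 1) (c 8) (c 11) (c 2) (c 9) (c 10) (c 3) (c 7) (c 12) := by
  by_cases h0 : c 5 = 0
  · exact Or.inl h0
  · obtain ⟨P, h8, hl⟩ := h.pairs 5 h0
    have hf : (univ.filter fun l => inc l 5 = true) = {1, 6, 9, 12} := by decide +kernel
    rw [hf, Finset.sum_insert (by decide), Finset.sum_insert (by decide),
      Finset.sum_insert (by decide), Finset.sum_singleton] at h8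
    refine Or.inr ⟨P 1, P 6, P 9, P 12, by omega, ?_, ?_, ?_, ?_⟩
    · obtain ⟨a1, a2⟩ := hl 1 (by decide +kernel)
      have he : (Ln 1).erase 5 = {0, 4, 6} := by decide +kernel
      rw [he, Finset.sum_insert (by decide), Finset.sum_insert (by decide),
        Finset.sum_singleton] at a1 a2
      have b0 := a2 0 (by decide)
      have b1 := a2 4 (by decide)
      have b2 := a2 6 (by decide)
      clear a2 hl
      omega
    · obtain ⟨a1, a2⟩ := hl 6 (by decide +kernel)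
      have he : (Ln 6).erase 5 = {1, 8, 11} := by decide +kernel
      rw [he, Finset.sum_insert (by decide), Finset.sum_insert (by decide),
        Finset.sum_singleton] at a1 a2
      have b0 := a2 1 (by decide)
      have b1 := a2 8 (by decide)
      have b2 := a2 11 (by decide)
      clear a2 hl
      omega
    · obtain ⟨a1, a2⟩ := hl 9 (by decide +kernel)
      have he : (Ln 9).erase 5 = {2, 9, 10} := by decide +kernel
      rw [he, Finset.sum_insert (by decide), Finset.sum_insert (by decide),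
        Finset.sum_singleton] at a1 a2
      have b0 := a2 2 (by decide)
      have b1 := a2 9 (by decide)
      have b2 := a2 10 (by decide)
      clear a2 hl
      omega
    · obtain ⟨a1, a2⟩ := hl 12 (by decide +kernel)
      have he : (Ln 12).erase 5 = {3, 7, 12} := by decide +kernel
      rw [he, Finset.sum_insert (by decide), Finset.sum_insert (by decide),
        Finset.sum_singleton] at a1 a2
      have b0 := a2 3 (by decide)
      have b1 := a2 7 (by decide)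
      have b2 := a2 12 (by decide)
      clear a2 hl
      omega

theorem gpt6 {c : Fin 13 → ℕ} (h : Good c) :
    PtOK (c 6) (c 0) (c 4) (c 5) (c 1) (c 9) (c 12) (c 3) (c 8) (c 10) (c 2) (c 7) (c 11) := by
  by_cases h0 : c 6 = 0
  · exact Or.inl h0
  · obtain ⟨P, h8, hl⟩ := h.pairs 6 h0
    have hf : (univ.filter fun l => inc l 6 = true) = {1, 5, 8, 11} := by decide +kernel
    rw [hf, Finset.sum_insert (by decide), Finset.sum_insert (by decide),
      Finset.sum_insert (by decide), Finset.sum_singleton] at h8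
    refine Or.inr ⟨P 1, P 5, P 8, P 11, by omega, ?_, ?_, ?_, ?_⟩
    · obtain ⟨a1, a2⟩ := hl 1 (by decide +kernel)
      have he : (Ln 1).erase 6 = {0, 4, 5} := by decide +kernel
      rw [he, Finset.sum_insert (by decide), Finset.sum_insert (by decide),
        Finset.sum_singleton] at a1 a2
      have b0 := a2 0 (by decide)
      have b1 := a2 4 (by decide)
      have b2 := a2 5 (by decide)
      clear a2 hl
      omega
    · obtain ⟨a1, a2⟩ := hl 5 (by decide +kernel)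
      have he : (Ln 5).erase 6 = {1, 9, 12} := by decide +kernel
      rw [he, Finset.sum_insert (by decide), Finset.sum_insert (by decide),
        Finset.sum_singleton] at a1 a2
      have b0 := a2 1 (by decide)
      have b1 := a2 9 (by decide)
      have b2 := a2 12 (by decide)
      clear a2 hl
      omega
    · obtain ⟨a1, a2⟩ := hl 8 (by decide +kernel)
      have he : (Ln 8).erase 6 = {3, 8, 10} := by decide +kernel
      rw [he, Finset.sum_insert (by decide), Finset.sum_insert (by decide),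
        Finset.sum_singleton] at a1 a2
      have b0 := a2 3 (by decide)
      have b1 := a2 8 (by decide)
      have b2 := a2 10 (by decide)
      clear a2 hl
      omega
    · obtain ⟨a1, a2⟩ := hl 11 (by decide +kernel)
      have he : (Ln 11).erase 6 = {2, 7, 11} := by decide +kernel
      rw [he, Finset.sum_insert (by decide), Finset.sum_insert (by decide),
        Finset.sum_singleton] at a1 a2
      have b0 := a2 2 (by decide)
      have b1 := a2 7 (by decide)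
      have b2 := a2 11 (by decide)
      clear a2 hl
      omega

theorem gpt7 {c : Fin 13 → ℕ} (h : Good c) :
    PtOK (c 7) (c 1) (c 4) (c 10) (c 0) (c 8) (c 9) (c 2) (c 6) (c 11) (c 3) (c 5) (c 12) := by
  by_cases h0 : c 7 = 0
  · exact Or.inl h0
  · obtain ⟨P, h8, hl⟩ := h.pairs 7 h0
    have hf : (univ.filter fun l => inc l 7 = true) = {0, 10, 11, 12} := by decide +kernel
    rw [hf, Finset.sum_insert (by decide), Finset.sum_insert (by decide),
      Finset.sum_insert (by decide), Finset.sum_singleton] at h8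
    refine Or.inr ⟨P 0, P 10, P 11, P 12, by omega, ?_, ?_, ?_, ?_⟩
    · obtain ⟨a1, a2⟩ := hl 0 (by decide +kernel)
      have he : (Ln 0).erase 7 = {1, 4, 10} := by decide +kernel
      rw [he, Finset.sum_insert (by decide), Finset.sum_insert (by decide),
        Finset.sum_singleton] at a1 a2
      have b0 := a2 1 (by decide)
      have b1 := a2 4 (by decide)
      have b2 := a2 10 (by decide)
      clear a2 hl
      omega
    · obtain ⟨a1, a2⟩ := hl 10 (by decide +kernel)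
      have he : (Ln 10).erase 7 = {0, 8, 9} := by decide +kernel
      rw [he, Finset.sum_insert (by decide), Finset.sum_insert (by decide),
        Finset.sum_singleton] at a1 a2
      have b0 := a2 0 (by decide)
      have b1 := a2 8 (by decide)
      have b2 := a2 9 (by decide)
      clear a2 hl
      omega
    · obtain ⟨a1, a2⟩ := hl 11 (by decide +kernel)
      have he : (Ln 11).erase 7 = {2, 6, 11} := by decide +kernel
      rw [he, Finset.sum_insert (by decide), Finset.sum_insert (by decide),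
        Finset.sum_singleton] at a1 a2
      have b0 := a2 2 (by decide)
      have b1 := a2 6 (by decide)
      have b2 := a2 11 (by decide)
      clear a2 hl
      omega
    · obtain ⟨a1, a2⟩ := hl 12 (by decide +kernel)
      have he : (Ln 12).erase 7 = {3, 5, 12} := by decide +kernel
      rw [he, Finset.sum_insert (by decide), Finset.sum_insert (by decide),
        Finset.sum_singleton] at a1 a2
      have b0 := a2 3 (by decide)
      have b1 := a2 5 (by decide)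
      have b2 := a2 12 (by decide)
      clear a2 hl
      omega

theorem gpt8 {c : Fin 13 → ℕ} (h : Good c) :
    PtOK (c 8) (c 2) (c 4) (c 12) (c 1) (c 5) (c 11) (c 3) (c 6) (c 10) (c 0) (c 7) (c 9) := by
  by_cases h0 : c 8 = 0
  · exact Or.inl h0
  · obtain ⟨P, h8, hl⟩ := h.pairs 8 h0
    have hf : (univ.filter fun l => inc l 8 = true) = {3, 6, 8, 10} := by decide +kernel
    rw [hf, Finset.sum_insert (by decide), Finset.sum_insert (by decide),
      Finset.sum_insert (by decide), Finset.sum_singleton] at h8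
    refine Or.inr ⟨P 3, P 6, P 8, P 10, by omega, ?_, ?_, ?_, ?_⟩
    · obtain ⟨a1, a2⟩ := hl 3 (by decide +kernel)
      have he : (Ln 3).erase 8 = {2, 4, 12} := by decide +kernel
      rw [he, Finset.sum_insert (by decide), Finset.sum_insert (by decide),
        Finset.sum_singleton] at a1 a2
      have b0 := a2 2 (by decide)
      have b1 := a2 4 (by decide)
      have b2 := a2 12 (by decide)
      clear a2 hl
      omega
    · obtain ⟨a1, a2⟩ := hl 6 (by decide +kernel)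
      have he : (Ln 6).erase 8 = {1, 5, 11} := by decide +kernel
      rw [he, Finset.sum_insert (by decide), Finset.sum_insert (by decide),
        Finset.sum_singleton] at a1 a2
      have b0 := a2 1 (by decide)
      have b1 := a2 5 (by decide)
      have b2 := a2 11 (by decide)
      clear a2 hl
      omega
    · obtain ⟨a1, a2⟩ := hl 8 (by decide +kernel)
      have he : (Ln 8).erase 8 = {3, 6, 10} := by decide +kernel
      rw [he, Finset.sum_insert (by decide), Finset.sum_insert (by decide),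
        Finset.sum_singleton] at a1 a2
      have b0 := a2 3 (by decide)
      have b1 := a2 6 (by decide)
      have b2 := a2 10 (by decide)
      clear a2 hl
      omega
    · obtain ⟨a1, a2⟩ := hl 10 (by decide +kernel)
      have he : (Ln 10).erase 8 = {0, 7, 9} := by decide +kernel
      rw [he, Finset.sum_insert (by decide), Finset.sum_insert (by decide),
        Finset.sum_singleton] at a1 a2
      have b0 := a2 0 (by decide)
      have b1 := a2 7 (by decide)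
      have b2 := a2 9 (by decide)
      clear a2 hl
      omega

theorem gpt9 {c : Fin 13 → ℕ} (h : Good c) :
    PtOK (c 9) (c 3) (c 4) (c 11) (c 1) (c 6) (c 12) (c 2) (c 5) (c 10) (c 0) (c 7) (c 8) := by
  by_cases h0 : c 9 = 0
  · exact Or.inl h0
  · obtain ⟨P, h8, hl⟩ := h.pairs 9 h0
    have hf : (univ.filter fun l => inc l 9 = true) = {2, 5, 9, 10} := by decide +kernel
    rw [hf, Finset.sum_insert (by decide), Finset.sum_insert (by decide),
      Finset.sum_insert (by decide), Finset.sum_singleton] at h8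
    refine Or.inr ⟨P 2, P 5, P 9, P 10, by omega, ?_, ?_, ?_, ?_⟩
    · obtain ⟨a1, a2⟩ := hl 2 (by decide +kernel)
      have he : (Ln 2).erase 9 = {3, 4, 11} := by decide +kernel
      rw [he, Finset.sum_insert (by decide), Finset.sum_insert (by decide),
        Finset.sum_singleton] at a1 a2
      have b0 := a2 3 (by decide)
      have b1 := a2 4 (by decide)
      have b2 := a2 11 (by decide)
      clear a2 hl
      omega
    · obtain ⟨a1, a2⟩ := hl 5 (by decide +kernel)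
      have he : (Ln 5).erase 9 = {1, 6, 12} := by decide +kernel
      rw [he, Finset.sum_insert (by decide), Finset.sum_insert (by decide),
        Finset.sum_singleton] at a1 a2
      have b0 := a2 1 (by decide)
      have b1 := a2 6 (by decide)
      have b2 := a2 12 (by decide)
      clear a2 hl
      omega
    · obtain ⟨a1, a2⟩ := hl 9 (by decide +kernel)
      have he : (Ln 9).erase 9 = {2, 5, 10} := by decide +kernel
      rw [he, Finset.sum_insert (by decide), Finset.sum_insert (by decide),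
        Finset.sum_singleton] at a1 a2
      have b0 := a2 2 (by decide)
      have b1 := a2 5 (by decide)
      have b2 := a2 10 (by decide)
      clear a2 hl
      omega
    · obtain ⟨a1, a2⟩ := hl 10 (by decide +kernel)
      have he : (Ln 10).erase 9 = {0, 7, 8} := by decide +kernel
      rw [he, Finset.sum_insert (by decide), Finset.sum_insert (by decide),
        Finset.sum_singleton] at a1 a2
      have b0 := a2 0 (by decide)
      have b1 := a2 7 (by decide)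
      have b2 := a2 8 (by decide)
      clear a2 hl
      omega

theorem gpt10 {c : Fin 13 → ℕ} (h : Good c) :
    PtOK (c 10) (c 1) (c 4) (c 7) (c 0) (c 11) (c 12) (c 3) (c 6) (c 8) (c 2) (c 5) (c 9) := by
  by_cases h0 : c 10 = 0
  · exact Or.inl h0
  · obtain ⟨P, h8, hl⟩ := h.pairs 10 h0
    have hf : (univ.filter fun l => inc l 10 = true) = {0, 7, 8, 9} := by decide +kernel
    rw [hf, Finset.sum_insert (by decide), Finset.sum_insert (by decide),
      Finset.sum_insert (by decide), Finset.sum_singleton] at h8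
    refine Or.inr ⟨P 0, P 7, P 8, P 9, by omega, ?_, ?_, ?_, ?_⟩
    · obtain ⟨a1, a2⟩ := hl 0 (by decide +kernel)
      have he : (Ln 0).erase 10 = {1, 4, 7} := by decide +kernel
      rw [he, Finset.sum_insert (by decide), Finset.sum_insert (by decide),
        Finset.sum_singleton] at a1 a2
      have b0 := a2 1 (by decide)
      have b1 := a2 4 (by decide)
      have b2 := a2 7 (by decide)
      clear a2 hl
      omega
    · obtain ⟨a1, a2⟩ := hl 7 (by decide +kernel)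
      have he : (Ln 7).erase 10 = {0, 11, 12} := by decide +kernel
      rw [he, Finset.sum_insert (by decide), Finset.sum_insert (by decide),
        Finset.sum_singleton] at a1 a2
      have b0 := a2 0 (by decide)
      have b1 := a2 11 (by decide)
      have b2 := a2 12 (by decide)
      clear a2 hl
      omega
    · obtain ⟨a1, a2⟩ := hl 8 (by decide +kernel)
      have he : (Ln 8).erase 10 = {3, 6, 8} := by decide +kernel
      rw [he, Finset.sum_insert (by decide), Finset.sum_insert (by decide),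
        Finset.sum_singleton] at a1 a2
      have b0 := a2 3 (by decide)
      have b1 := a2 6 (by decide)
      have b2 := a2 8 (by decide)
      clear a2 hl
      omega
    · obtain ⟨a1, a2⟩ := hl 9 (by decide +kernel)
      have he : (Ln 9).erase 10 = {2, 5, 9} := by decide +kernel
      rw [he, Finset.sum_insert (by decide), Finset.sum_insert (by decide),
        Finset.sum_singleton] at a1 a2
      have b0 := a2 2 (by decide)
      have b1 := a2 5 (by decide)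
      have b2 := a2 9 (by decide)
      clear a2 hl
      omega

theorem gpt11 {c : Fin 13 → ℕ} (h : Good c) :
    PtOK (c 11) (c 3) (c 4) (c 9) (c 1) (c 5) (c 8) (c 0) (c 10) (c 12) (c 2) (c 6) (c 7) := by
  by_cases h0 : c 11 = 0
  · exact Or.inl h0
  · obtain ⟨P, h8, hl⟩ := h.pairs 11 h0
    have hf : (univ.filter fun l => inc l 11 = true) = {2, 6, 7, 11} := by decide +kernel
    rw [hf, Finset.sum_insert (by decide), Finset.sum_insert (by decide),
      Finset.sum_insert (by decide), Finset.sum_singleton] at h8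
    refine Or.inr ⟨P 2, P 6, P 7, P 11, by omega, ?_, ?_, ?_, ?_⟩
    · obtain ⟨a1, a2⟩ := hl 2 (by decide +kernel)
      have he : (Ln 2).erase 11 = {3, 4, 9} := by decide +kernel
      rw [he, Finset.sum_insert (by decide), Finset.sum_insert (by decide),
        Finset.sum_singleton] at a1 a2
      have b0 := a2 3 (by decide)
      have b1 := a2 4 (by decide)
      have b2 := a2 9 (by decide)
      clear a2 hl
      omega
    · obtain ⟨a1, a2⟩ := hl 6 (by decide +kernel)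
      have he : (Ln 6).erase 11 = {1, 5, 8} := by decide +kernel
      rw [he, Finset.sum_insert (by decide), Finset.sum_insert (by decide),
        Finset.sum_singleton] at a1 a2
      have b0 := a2 1 (by decide)
      have b1 := a2 5 (by decide)
      have b2 := a2 8 (by decide)
      clear a2 hl
      omega
    · obtain ⟨a1, a2⟩ := hl 7 (by decide +kernel)
      have he : (Ln 7).erase 11 = {0, 10, 12} := by decide +kernel
      rw [he, Finset.sum_insert (by decide), Finset.sum_insert (by decide),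
        Finset.sum_singleton] at a1 a2
      have b0 := a2 0 (by decide)
      have b1 := a2 10 (by decide)
      have b2 := a2 12 (by decide)
      clear a2 hl
      omega
    · obtain ⟨a1, a2⟩ := hl 11 (by decide +kernel)
      have he : (Ln 11).erase 11 = {2, 6, 7} := by decide +kernel
      rw [he, Finset.sum_insert (by decide), Finset.sum_insert (by decide),
        Finset.sum_singleton] at a1 a2
      have b0 := a2 2 (by decide)
      have b1 := a2 6 (by decide)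
      have b2 := a2 7 (by decide)
      clear a2 hl
      omega

theorem gpt12 {c : Fin 13 → ℕ} (h : Good c) :
    PtOK (c 12) (c 2) (c 4) (c 8) (c 1) (c 6) (c 9) (c 0) (c 10) (c 11) (c 3) (c 5) (c 7) := by
  by_cases h0 : c 12 = 0
  · exact Or.inl h0
  · obtain ⟨P, h8, hl⟩ := h.pairs 12 h0
    have hf : (univ.filter fun l => inc l 12 = true) = {3, 5, 7, 12} := by decide +kernel
    rw [hf, Finset.sum_insert (by decide), Finset.sum_insert (by decide),
      Finset.sum_insert (by decide), Finset.sum_singleton] at h8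
    refine Or.inr ⟨P 3, P 5, P 7, P 12, by omega, ?_, ?_, ?_, ?_⟩
    · obtain ⟨a1, a2⟩ := hl 3 (by decide +kernel)
      have he : (Ln 3).erase 12 = {2, 4, 8} := by decide +kernel
      rw [he, Finset.sum_insert (by decide), Finset.sum_insert (by decide),
        Finset.sum_singleton] at a1 a2
      have b0 := a2 2 (by decide)
      have b1 := a2 4 (by decide)
      have b2 := a2 8 (by decide)
      clear a2 hl
      omega
    · obtain ⟨a1, a2⟩ := hl 5 (by decide +kernel)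
      have he : (Ln 5).erase 12 = {1, 6, 9} := by decide +kernel
      rw [he, Finset.sum_insert (by decide), Finset.sum_insert (by decide),
        Finset.sum_singleton] at a1 a2
      have b0 := a2 1 (by decide)
      have b1 := a2 6 (by decide)
      have b2 := a2 9 (by decide)
      clear a2 hl
      omega
    · obtain ⟨a1, a2⟩ := hl 7 (by decide +kernel)
      have he : (Ln 7).erase 12 = {0, 10, 11} := by decide +kernel
      rw [he, Finset.sum_insert (by decide), Finset.sum_insert (by decide),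
        Finset.sum_singleton] at a1 a2
      have b0 := a2 0 (by decide)
      have b1 := a2 10 (by decide)
      have b2 := a2 11 (by decide)
      clear a2 hl
      omega
    · obtain ⟨a1, a2⟩ := hl 12 (by decide +kernel)
      have he : (Ln 12).erase 12 = {3, 5, 7} := by decide +kernel
      rw [he, Finset.sum_insert (by decide), Finset.sum_insert (by decide),
        Finset.sum_singleton] at a1 a2
      have b0 := a2 3 (by decide)
      have b1 := a2 5 (by decide)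
      have b2 := a2 7 (by decide)
      clear a2 hl
      omega

theorem good_false {c : Fin 13 → ℕ} (h : Good c) : False := by
  have ht := h.tot
  have hu : (univ : Finset (Fin 13)) = {0, 1, 2, 3, 4, 5, 6, 7, 8, 9, 10, 11, 12} := by decide +kernel
  rw [hu, Finset.sum_insert (by decide), Finset.sum_insert (by decide), Finset.sum_insert (by decide), Finset.sum_insert (by decide), Finset.sum_insert (by decide), Finset.sum_insert (by decide), Finset.sum_insert (by decide), Finset.sum_insert (by decide), Finset.sum_insert (by decide), Finset.sum_insert (by decide), Finset.sum_insert (by decide), Finset.sum_insert (by decide),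
    Finset.sum_singleton] at ht
  refine nosol2 (c 0) (c 1) (c 2) (c 3) (c 4) (c 5) (c 6) (c 7) (c 8) (c 9) (c 10) (c 11) (c 12) ?_ (gline0 h) (gline1 h) (gline2 h) (gline3 h) (gline4 h) (gline5 h) (gline6 h) (gline7 h) (gline8 h) (gline9 h) (gline10 h) (gline11 h) (gline12 h) (gpt0 h) (gpt1 h) (gpt2 h) (gpt3 h) (gpt4 h) (gpt5 h) (gpt6 h) (gpt7 h) (gpt8 h) (gpt9 h) (gpt10 h) (gpt11 h) (gpt12 h)
  clear h
  omega

end Pool.Agent.Helper54K9.AllSym
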