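import Pool.Agent.Helper54K9.AllSym.Lower
import Pool.Agent.Helper54K9.AllSym.Codes

/-!
# The values at `k = 3` over the field with three elements
-/

set_option autoImplicit false

namespace Pool.Agent.Helper54K9.AllSym

theorem mem_pir {n t : ℕ} (G : Matrix (Fin 3) (Fin n) (ZMod 3))
    (hli : LinearIndependent (ZMod 3) (fun i => G i)) (h : AllSymbolPIR t G) :
    n ∈ {n : ℕ | ∃ C : Submodule (ZMod 3) (Fin n → ZMod 3), Module.finrank (ZMod 3) C = 3 ∧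
      ∃ G : Matrix (Fin 3) (Fin n) (ZMod 3), IsGeneratorMatrix G C ∧ AllSymbolPIR t G} := by
  refine ⟨Submodule.span (ZMod 3) (Set.range fun i => G i), ?_, G, ⟨hli, rfl⟩, h⟩
  rw [finrank_span_eq_card hli, Fintype.card_fin]

theorem mem_batch {n t : ℕ} (G : Matrix (Fin 3) (Fin n) (ZMod 3))
    (hli : LinearIndependent (ZMod 3) (fun i => G i)) (h : AllSymbolBatch t G) :
    n ∈ {n : ℕ | ∃ C : Submodule (ZMod 3) (Fin n → ZMod 3), Module.finrank (ZMod 3) C = 3 ∧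
      ∃ G : Matrix (Fin 3) (Fin n) (ZMod 3), IsGeneratorMatrix G C ∧ AllSymbolBatch t G} := by
  refine ⟨Submodule.span (ZMod 3) (Set.range fun i => G i), ?_, G, ⟨hli, rfl⟩, h⟩
  rw [finrank_span_eq_card hli, Fintype.card_fin]

theorem asp5 : ASP (ZMod 3) 3 5 ≤ 9 := Nat.sInf_le (mem_pir G9 li9 (batch_pir batch9))

theorem asb5 : ASB (ZMod 3) 3 5 ≤ 9 := Nat.sInf_le (mem_batch G9 li9 batch9)

theorem asp2 : ASP (ZMod 3) 3 2 ≤ 4 := Nat.sInf_le (mem_pir G4 li4 (batch_pir batch4))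

theorem asb2 : ASB (ZMod 3) 3 2 ≤ 4 := Nat.sInf_le (mem_batch G4 li4 batch4)

theorem asp7 : 14 ≤ ASP (ZMod 3) 3 7 := by
  have h := Nat.sInf_mem ⟨21, mem_pir G21 li21 (batch_pir batch21)⟩
  obtain ⟨C, _, G, hG, hP⟩ := h
  exact lower G hG.1 hP

theorem asb7 : 14 ≤ ASB (ZMod 3) 3 7 := by
  have h := Nat.sInf_mem ⟨21, mem_batch G21 li21 batch21⟩
  obtain ⟨C, _, G, hG, hP⟩ := h
  exact lower G hG.1 (batch_pir hP)

end Pool.Agent.Helper54K9.AllSym
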