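import Pool.Agent.Helper54K9.AllSym.Defs

/-!
# The projective plane of order three and families of thirteen nonzero vectors
-/

set_option autoImplicit false

namespace Pool.Agent.Helper54K9.AllSym

open Finset

/-- vectors of length three over the field with three elements -/
abbrev V := Fin 3 → ZMod 3

/-- the thirteen points, normalised -/
def pt : Fin 13 → V :=
  ![![0, 0, 1], ![0, 1, 0], ![0, 1, 1], ![0, 1, 2], ![1, 0, 0], ![1, 0, 1], ![1, 0, 2],
    ![1, 1, 0], ![1, 1, 1], ![1, 1, 2], ![1, 2, 0], ![1, 2, 1], ![1, 2, 2]]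

/-- the class of a nonzero vector -/
def cls (w : V) : Fin 13 :=
  if w 0 ≠ 0 then Fin.ofNat 13 (4 + 3 * (w 1 * w 0).val + (w 2 * w 0).val)
  else if w 1 ≠ 0 then Fin.ofNat 13 (1 + (w 2 * w 1).val) else 0

/-- the value of the linear form `pt l` at `w` -/
def lf (l : Fin 13) (w : V) : ZMod 3 := pt l 0 * w 0 + pt l 1 * w 1 + pt l 2 * w 2

/-- incidence of the line `l` and the point `i` -/
def inc (l i : Fin 13) : Bool := decide (lf l (pt i) = 0)

/-- the line through two points -/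
def ln (p x : Fin 13) : Fin 13 :=
  cls ![pt p 1 * pt x 2 - pt p 2 * pt x 1, pt p 2 * pt x 0 - pt p 0 * pt x 2,
    pt p 0 * pt x 1 - pt p 1 * pt x 0]

theorem eta (w : V) : w = ![w 0, w 1, w 2] := by
  ext i; fin_cases i <;> rfl

theorem inc_cls (l : Fin 13) (w : V) (hw : w ≠ 0) : inc l (cls w) = true ↔ lf l w = 0 := by
  have key : ∀ (l : Fin 13) (a b c : ZMod 3), ¬ (a = 0 ∧ b = 0 ∧ c = 0) →
      (inc l (cls ![a, b, c]) = true ↔ lf l ![a, b, c] = 0) := by
    decide +kernel
  rw [eta w]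
  apply key
  rintro ⟨h0, h1, h2⟩
  exact hw (by rw [eta w, h0, h1, h2]; ext i; fin_cases i <;> rfl)

theorem cls_eq (a b : V) (ha : a ≠ 0) (hb : b ≠ 0) (h : cls a = cls b) : b = a ∨ b = -a := by
  have key : ∀ (a0 a1 a2 b0 b1 b2 : ZMod 3), ¬ (a0 = 0 ∧ a1 = 0 ∧ a2 = 0) →
      ¬ (b0 = 0 ∧ b1 = 0 ∧ b2 = 0) → cls ![a0, a1, a2] = cls ![b0, b1, b2] →
      (b0 = a0 ∧ b1 = a1 ∧ b2 = a2) ∨ (b0 = -a0 ∧ b1 = -a1 ∧ b2 = -a2) := by
    decide +kernel
  have ha' : ¬ (a 0 = 0 ∧ a 1 = 0 ∧ a 2 = 0) := by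
    rintro ⟨h0, h1, h2⟩
    exact ha (by rw [eta a, h0, h1, h2]; ext i; fin_cases i <;> rfl)
  have hb' : ¬ (b 0 = 0 ∧ b 1 = 0 ∧ b 2 = 0) := by
    rintro ⟨h0, h1, h2⟩
    exact hb (by rw [eta b, h0, h1, h2]; ext i; fin_cases i <;> rfl)
  have h' : cls ![a 0, a 1, a 2] = cls ![b 0, b 1, b 2] := by rw [← eta a, ← eta b]; exact h
  rcases key _ _ _ _ _ _ ha' hb' h' with ⟨h0, h1, h2⟩ | ⟨h0, h1, h2⟩
  · left; ext i; fin_cases i <;> simp [h0, h1, h2]
  · right; ext i; fin_cases i <;> simp [h0, h1, h2]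

theorem cls_smul (s : ZMod 3) (hs : s ≠ 0) (a : V) : cls (s • a) = cls a := by
  have key : ∀ (s a0 a1 a2 : ZMod 3), s ≠ 0 →
      cls ![s * a0, s * a1, s * a2] = cls ![a0, a1, a2] := by
    decide +kernel
  have := key s (a 0) (a 1) (a 2) hs
  rw [← eta a] at this
  rw [← this]
  congr 1
  ext i; fin_cases i <;> rfl

theorem ln_inc (p x : Fin 13) (h : p ≠ x) : inc (ln p x) p = true ∧ inc (ln p x) x = true := by
  revert p x
  decide +kernel

theorem ln_unique (p x l : Fin 13) (h : p ≠ x) (hp : inc l p = true) (hx : inc l x = true) :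
    l = ln p x := by
  revert p x l
  decide +kernel

theorem lf_add (l : Fin 13) (v w : V) : lf l (v + w) = lf l v + lf l w := by
  simp only [lf, Pi.add_apply]; ring

theorem lf_smul (l : Fin 13) (s : ZMod 3) (v : V) : lf l (s • v) = s * lf l v := by
  simp only [lf, Pi.smul_apply, smul_eq_mul]; ring

/-- the linear form -/
def lform (l : Fin 13) : V →ₗ[ZMod 3] ZMod 3 where
  toFun := lf l
  map_add' := lf_add l
  map_smul' s v := lf_smul l s v

/-- a vector in the span of two vectors, not parallel to any of them -/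
theorem pair_line {v a b : V} (hv : v ≠ 0) (ha : a ≠ 0) (hb : b ≠ 0)
    (hsp : v ∈ Submodule.span (ZMod 3) ({a, b} : Set V)) (hva : cls a ≠ cls v)
    (hvb : cls b ≠ cls v) :
    cls a ≠ cls b ∧ inc (ln (cls v) (cls a)) (cls b) = true := by
  obtain ⟨s, t, hst⟩ := Submodule.mem_span_pair.1 hsp
  have hs : s ≠ 0 := by
    rintro rfl
    have ht : t ≠ 0 := by
      rintro rfl
      exact hv (by rw [← hst]; simp)
    apply hvb
    rw [← hst, zero_smul, zero_add, cls_smul t ht]
  have ht : t ≠ 0 := by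
    rintro rfl
    apply hva
    rw [← hst, zero_smul, add_zero, cls_smul s hs]
  constructor
  · intro hab
    rcases cls_eq a b ha hb hab with h | h
    · have h3 : (s + t) • a = v := by rw [← hst, h, add_smul]
      have h4 : s + t ≠ 0 := by
        intro h0; rw [h0, zero_smul] at h3; exact hv h3.symm
      exact hva (by rw [← h3, cls_smul _ h4])
    · have h3 : (s - t) • a = v := by rw [← hst, h, sub_smul, smul_neg, sub_eq_add_neg]
      have h4 : s - t ≠ 0 := by
        intro h0; rw [h0, zero_smul] at h3; exact hv h3.symm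
      exact hva (by rw [← h3, cls_smul _ h4])
  · have hne : cls v ≠ cls a := fun h => hva h.symm
    obtain ⟨h1, h2⟩ := ln_inc _ _ hne
    rw [inc_cls _ _ hv] at h1
    rw [inc_cls _ _ ha] at h2
    rw [inc_cls _ _ hb]
    have h4 : ∀ L, lf L v = s * lf L a + t * lf L b := by
      intro L
      rw [← hst, lf_add, lf_smul, lf_smul]
    have h3 := h4 (ln (cls v) (cls a))
    rw [h1, h2, mul_zero, zero_add] at h3
    rcases mul_eq_zero.1 h3.symm with h | h
    · exact absurd h ht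
    · exact h

end Pool.Agent.Helper54K9.AllSym
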