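import Pool.Agent.Helper54K9.AllSym.Geom

/-!
# Weights of the thirteen points defined by a family with seven recovery sets
-/

set_option autoImplicit false

namespace Pool.Agent.Helper54K9.AllSym

open Finset

/-- the points of the line `l` -/
def Ln (l : Fin 13) : Finset (Fin 13) := univ.filter fun i => inc l i = true

/-- the conditions on the weights -/
structure Good (c : Fin 13 → ℕ) : Prop where
  tot : ∑ i, c i = 13
  line : ∀ l, ∑ i ∈ Ln l, c i ≤ 6
  pairs : ∀ p, c p ≠ 0 → ∃ P : Fin 13 → ℕ,
    8 ≤ ∑ l ∈ univ.filter (fun l => inc l p = true), P l + 2 * c p ∧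
    ∀ l, inc l p = true → 2 * P l ≤ ∑ i ∈ (Ln l).erase p, c i ∧
      ∀ x ∈ (Ln l).erase p, P l + c x ≤ ∑ i ∈ (Ln l).erase p, c i

/-- number of vectors of the family in a class -/
def cnt (g : Fin 13 → V) (i : Fin 13) : ℕ := (univ.filter fun j => cls (g j) = i).card

theorem sum_cnt (g : Fin 13 → V) (T : Finset (Fin 13)) :
    ∑ i ∈ T, cnt g i = (univ.filter fun j => cls (g j) ∈ T).card := by
  classical
  rw [Finset.card_eq_sum_card_fiberwise (f := fun j => cls (g j)) (t := T)]
  · apply Finset.sum_congr rfl
    intro i hi
    unfold cnt
    congr 1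
    ext j
    simp only [mem_filter, mem_univ, true_and]
    constructor
    · intro h; exact ⟨by rw [h]; exact hi, h⟩
    · intro h; exact h.2
  · intro j hj
    simpa using hj

/-- pairwise disjoint sets -/
theorem disj_sum {m N : ℕ} (R : Fin m → Finset (Fin N)) (hR : ∀ a b, a ≠ b → Disjoint (R a) (R b))
    (A : Finset (Fin m)) (W : Finset (Fin N)) : ∑ a ∈ A, (R a ∩ W).card ≤ W.card := by
  classical
  rw [← Finset.card_biUnion]
  · apply Finset.card_le_card
    intro x hx
    rw [Finset.mem_biUnion] at hx
    obtain ⟨a, _, ha⟩ := hx
    exact (Finset.mem_inter.1 ha).2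
  · intro a _ b _ hab
    exact Disjoint.mono Finset.inter_subset_left Finset.inter_subset_left (hR a b hab)

theorem disj_count {m N : ℕ} (R : Fin m → Finset (Fin N)) (hR : ∀ a b, a ≠ b → Disjoint (R a) (R b))
    (A : Finset (Fin m)) (W : Finset (Fin N)) (k : ℕ) (h : ∀ a ∈ A, k ≤ (R a ∩ W).card) :
    k * A.card ≤ W.card := by
  refine le_trans ?_ (disj_sum R hR A W)
  rw [mul_comm, ← smul_eq_mul, ← Finset.sum_const]
  exact Finset.sum_le_sum h

/-- the family version of the all-symbol PIR property -/
def FamPIR {n : ℕ} (t : ℕ) (g : Fin n → V) : Prop :=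
  ∀ j, ∃ R : Fin t → Finset (Fin n), (∀ a b, a ≠ b → Disjoint (R a) (R b)) ∧
    ∀ a, g j ∈ Submodule.span (ZMod 3) (g '' (R a : Set (Fin n)))

theorem good_of_pir (g : Fin 13 → V) (h0 : ∀ j, g j ≠ 0)
    (hsp : ∀ l : Fin 13, ∃ j, lf l (g j) ≠ 0) (hP : FamPIR 7 g) : Good (cnt g) := by
  classical
  refine ⟨?_, ?_, ?_⟩
  · rw [sum_cnt]; simp
  · intro l
    rw [sum_cnt]
    obtain ⟨j0, hj0⟩ := hsp l
    obtain ⟨R, hR, hS⟩ := hP j0
    have h1 := disj_count R hR univ (univ.filter fun j => ¬ (cls (g j) ∈ Ln l)) 1 (by
      intro a _
      rw [Nat.one_le_iff_ne_zero, Finset.card_ne_zero]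
      by_contra hcon
      rw [Finset.not_nonempty_iff_eq_empty] at hcon
      apply hj0
      have hle : Submodule.span (ZMod 3) (g '' (R a : Set (Fin 13))) ≤ LinearMap.ker (lform l) := by
        rw [Submodule.span_le]
        rintro _ ⟨j, hj, rfl⟩
        rw [SetLike.mem_coe, LinearMap.mem_ker]
        by_contra hne
        have : j ∈ R a ∩ univ.filter fun j => ¬ (cls (g j) ∈ Ln l) := by
          rw [Finset.mem_inter, Finset.mem_filter]
          refine ⟨hj, mem_univ _, ?_⟩
          intro hmem
          unfold Ln at hmem
          rw [Finset.mem_filter] at hmem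
          exact hne ((inc_cls l (g j) (h0 j)).1 hmem.2)
        rw [hcon] at this
        exact absurd this (Finset.notMem_empty _)
      exact LinearMap.mem_ker.1 (hle (hS a)))
    rw [one_mul, Finset.card_univ, Fintype.card_fin] at h1
    have h2 := Finset.card_filter_add_card_filter_not (s := (univ : Finset (Fin 13)))
      (fun j => cls (g j) ∈ Ln l)
    rw [Finset.card_univ, Fintype.card_fin] at h2
    omega
  · intro p hp
    have hex : ∃ j0, cls (g j0) = p := by
      unfold cnt at hp
      rw [Finset.card_ne_zero] at hp
      obtain ⟨j, hj⟩ := hp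
      exact ⟨j, (Finset.mem_filter.1 hj).2⟩
    obtain ⟨j0, rfl⟩ := hex
    set v := g j0 with hv
    have hv0 : v ≠ 0 := h0 j0
    obtain ⟨R, hR, hS⟩ := hP j0
    set A0 : Finset (Fin 7) := univ.filter fun a => ∃ j ∈ R a, cls (g j) = cls v with hA0
    set A2 : Finset (Fin 7) := univ.filter fun a => a ∉ A0 ∧ (R a).card = 2 with hA2
    set A3 : Finset (Fin 7) := univ.filter fun a => a ∉ A0 ∧ (R a).card ≠ 2 with hA3
    set P : Fin 13 → ℕ := fun l =>
      (A2.filter fun a => ∀ j ∈ R a, inc l (cls (g j)) = true).card with hPdef
    -- members of sets outside A0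
    have hout : ∀ a, a ∉ A0 → ∀ j ∈ R a, cls (g j) ≠ cls v := by
      intro a ha j hj hc
      apply ha
      rw [hA0, Finset.mem_filter]
      exact ⟨mem_univ _, j, hj, hc⟩
    have hcard : ∀ a, a ∉ A0 → 2 ≤ (R a).card := by
      intro a ha
      by_contra hlt
      have hlt' : (R a).card ≤ 1 := by omega
      have hmem := hS a
      rcases Finset.card_le_one_iff_subset_singleton.1 hlt' with ⟨j, hj⟩
      have h1 : v ∈ Submodule.span (ZMod 3) ({g j} : Set V) := by
        refine Submodule.span_mono ?_ hmem
        rintro _ ⟨i, hi, rfl⟩
        have := hj hi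
        rw [Finset.mem_singleton] at this
        rw [this]; rfl
      obtain ⟨s, hs⟩ := Submodule.mem_span_singleton.1 h1
      have hs0 : s ≠ 0 := by
        rintro rfl
        rw [zero_smul] at hs
        exact hv0 hs.symm
      by_cases hjR : j ∈ R a
      · apply hout a ha j hjR
        rw [← hs, cls_smul s hs0]
      · have hemp : R a = ∅ := by
          rw [Finset.eq_empty_iff_forall_notMem]
          intro i hi
          have := hj hi
          rw [Finset.mem_singleton] at this
          rw [this] at hi
          exact hjR hi
        rw [hemp] at hmem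
        simp only [Finset.coe_empty, Set.image_empty, Submodule.span_empty,
          Submodule.mem_bot] at hmem
        exact hv0 hmem
    -- structure of the pairs
    have hpair : ∀ a ∈ A2, ∃ i j, i ∈ R a ∧ j ∈ R a ∧ i ≠ j ∧ R a = {i, j} ∧
        cls (g i) ≠ cls (g j) ∧ inc (ln (cls v) (cls (g i))) (cls (g j)) = true := by
      intro a ha
      rw [hA2, Finset.mem_filter] at ha
      obtain ⟨_, haA, hc2⟩ := ha
      obtain ⟨i, j, hij, hRa⟩ := Finset.card_eq_two.1 hc2
      have hi : i ∈ R a := by rw [hRa]; simp
      have hj : j ∈ R a := by rw [hRa]; simp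
      have hmem := hS a
      rw [hRa] at hmem
      have himg : g '' (({i, j} : Finset (Fin 13)) : Set (Fin 13)) = {g i, g j} := by
        rw [Finset.coe_insert, Finset.coe_singleton, Set.image_insert_eq, Set.image_singleton]
      rw [himg] at hmem
      obtain ⟨h1, h2⟩ := pair_line hv0 (h0 i) (h0 j) hmem (hout a haA i hi) (hout a haA j hj)
      exact ⟨i, j, hi, hj, hij, hRa, h1, h2⟩
    refine ⟨P, ?_, ?_⟩
    · -- counting
      have e1 : A0.card ≤ cnt g (cls v) := by
        have := disj_count R hR A0 (univ.filter fun j => cls (g j) = cls v) 1 (by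
          intro a ha
          rw [hA0, Finset.mem_filter] at ha
          obtain ⟨_, j, hj, hc⟩ := ha
          rw [Nat.one_le_iff_ne_zero, Finset.card_ne_zero]
          exact ⟨j, by rw [Finset.mem_inter, Finset.mem_filter]; exact ⟨hj, mem_univ _, hc⟩⟩)
        rw [one_mul] at this
        exact this
      have e2 : A2.card ≤ ∑ l ∈ univ.filter (fun l => inc l (cls v) = true), P l := by
        have hsub : A2 ⊆ (univ.filter (fun l => inc l (cls v) = true)).biUnion fun l =>
            A2.filter fun a => ∀ j ∈ R a, inc l (cls (g j)) = true := by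
          intro a ha
          obtain ⟨i, j, hi, hj, hij, hRa, h1, h2⟩ := hpair a ha
          have haA : a ∉ A0 := by
            rw [hA2, Finset.mem_filter] at ha; exact ha.2.1
          have hne : cls v ≠ cls (g i) := fun h => hout a haA i hi h.symm
          obtain ⟨h3, h4⟩ := ln_inc _ _ hne
          rw [Finset.mem_biUnion]
          refine ⟨ln (cls v) (cls (g i)), ?_, ?_⟩
          · rw [Finset.mem_filter]; exact ⟨mem_univ _, h3⟩
          · rw [Finset.mem_filter]
            refine ⟨ha, ?_⟩
            intro m hm
            rw [hRa, Finset.mem_insert, Finset.mem_singleton] at hm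
            rcases hm with rfl | rfl
            · exact h4
            · exact h2
        exact le_trans (Finset.card_le_card hsub) Finset.card_biUnion_le
      have e3 : 2 * A2.card + 3 * A3.card + cnt g (cls v) ≤ 13 := by
        have h1 := disj_sum R hR (A2 ∪ A3) (univ.filter fun j => ¬ cls (g j) = cls v)
        have hdis : Disjoint A2 A3 := by
          rw [Finset.disjoint_left]
          intro a ha2 ha3
          rw [hA2, Finset.mem_filter] at ha2
          rw [hA3, Finset.mem_filter] at ha3
          exact ha3.2.2 ha2.2.2
        rw [Finset.sum_union hdis] at h1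
        have hfull : ∀ a, a ∉ A0 → (R a ∩ univ.filter fun j => ¬ cls (g j) = cls v) = R a := by
          intro a ha
          rw [Finset.inter_eq_left]
          intro j hj
          rw [Finset.mem_filter]
          exact ⟨mem_univ _, hout a ha j hj⟩
        have h2 : 2 * A2.card ≤ ∑ a ∈ A2, (R a ∩ univ.filter fun j => ¬ cls (g j) = cls v).card := by
          rw [mul_comm, ← smul_eq_mul, ← Finset.sum_const]
          apply Finset.sum_le_sum
          intro a ha
          rw [hA2, Finset.mem_filter] at ha
          rw [hfull a ha.2.1, ha.2.2]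
        have h3 : 3 * A3.card ≤ ∑ a ∈ A3, (R a ∩ univ.filter fun j => ¬ cls (g j) = cls v).card := by
          rw [mul_comm, ← smul_eq_mul, ← Finset.sum_const]
          apply Finset.sum_le_sum
          intro a ha
          rw [hA3, Finset.mem_filter] at ha
          rw [hfull a ha.2.1]
          have := hcard a ha.2.1
          omega
        have h4 := Finset.card_filter_add_card_filter_not (s := (univ : Finset (Fin 13)))
          (fun j => cls (g j) = cls v)
        rw [Finset.card_univ, Fintype.card_fin] at h4
        unfold cnt
        omega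
      have e4 : 7 ≤ A0.card + A2.card + A3.card := by
        have hcov : (univ : Finset (Fin 7)) ⊆ (A0 ∪ A2) ∪ A3 := by
          intro a _
          by_cases h1 : a ∈ A0
          · exact Finset.mem_union_left _ (Finset.mem_union_left _ h1)
          · by_cases h2 : (R a).card = 2
            · refine Finset.mem_union_left _ (Finset.mem_union_right _ ?_)
              rw [hA2, Finset.mem_filter]
              exact ⟨mem_univ _, h1, h2⟩
            · refine Finset.mem_union_right _ ?_
              rw [hA3, Finset.mem_filter]
              exact ⟨mem_univ _, h1, h2⟩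
        have h1 := Finset.card_le_card hcov
        rw [Finset.card_univ, Fintype.card_fin] at h1
        have h2 := Finset.card_union_le (A0 ∪ A2) A3
        have h3 := Finset.card_union_le A0 A2
        omega
      omega
    · intro l hl
      have hsum : ∑ i ∈ (Ln l).erase (cls v), cnt g i =
          (univ.filter fun j => cls (g j) ∈ (Ln l).erase (cls v)).card := sum_cnt g _
      have hinW : ∀ a ∈ A2, (∀ j ∈ R a, inc l (cls (g j)) = true) → ∀ j ∈ R a,
          cls (g j) ∈ (Ln l).erase (cls v) := by
        intro a ha hall j hj
        have haA : a ∉ A0 := by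
          rw [hA2, Finset.mem_filter] at ha; exact ha.2.1
        rw [Finset.mem_erase]
        refine ⟨hout a haA j hj, ?_⟩
        unfold Ln
        rw [Finset.mem_filter]
        exact ⟨mem_univ _, hall j hj⟩
      constructor
      · rw [hsum]
        apply disj_count R hR
        intro a ha
        rw [Finset.mem_filter] at ha
        have hfull : R a ∩ (univ.filter fun j => cls (g j) ∈ (Ln l).erase (cls v)) = R a := by
          rw [Finset.inter_eq_left]
          intro j hj
          rw [Finset.mem_filter]
          exact ⟨mem_univ _, hinW a ha.1 ha.2 j hj⟩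
        rw [hfull]
        have := ha.1
        rw [hA2, Finset.mem_filter] at this
        rw [this.2.2]
      · intro x hx
        have h1 : P l ≤ (univ.filter fun j => cls (g j) ∈ (Ln l).erase (cls v) ∧
            cls (g j) ≠ x).card := by
          have := disj_count R hR (A2.filter fun a => ∀ j ∈ R a, inc l (cls (g j)) = true)
            (univ.filter fun j => cls (g j) ∈ (Ln l).erase (cls v) ∧ cls (g j) ≠ x) 1 (by
            intro a ha
            rw [Finset.mem_filter] at ha
            obtain ⟨i, j, hi, hj, hij, hRa, h1, h2⟩ := hpair a ha.1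
            rw [Nat.one_le_iff_ne_zero, Finset.card_ne_zero]
            by_cases hix : cls (g i) = x
            · refine ⟨j, ?_⟩
              rw [Finset.mem_inter, Finset.mem_filter]
              refine ⟨hj, mem_univ _, hinW a ha.1 ha.2 j hj, ?_⟩
              intro h
              exact h1 (by rw [hix, h])
            · refine ⟨i, ?_⟩
              rw [Finset.mem_inter, Finset.mem_filter]
              exact ⟨hi, mem_univ _, hinW a ha.1 ha.2 i hi, hix⟩)
          rw [one_mul] at this
          exact this
        have h2 : (univ.filter fun j => cls (g j) ∈ (Ln l).erase (cls v) ∧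
            cls (g j) ≠ x).card + cnt g x =
            (univ.filter fun j => cls (g j) ∈ (Ln l).erase (cls v)).card := by
          unfold cnt
          rw [← Finset.card_union_of_disjoint]
          · congr 1
            ext j
            simp only [Finset.mem_union, Finset.mem_filter, Finset.mem_univ, true_and]
            constructor
            · rintro (h | h)
              · exact h.1
              · rw [h]; exact hx
            · intro h
              by_cases hjx : cls (g j) = x
              · exact Or.inr hjx
              · exact Or.inl ⟨h, hjx⟩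
          · rw [Finset.disjoint_left]
            intro j hj1 hj2
            rw [Finset.mem_filter] at hj1 hj2
            exact hj1.2.2 hj2.2
        rw [hsum, ← h2]
        exact Nat.add_le_add_right h1 _

end Pool.Agent.Helper54K9.AllSym
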