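import Pool.Agent.Helper54K9.AllSym.Explicit

/-!
# No ternary code of dimension three and length at most thirteen has the 7-all-symbol PIR property
-/

set_option autoImplicit false

namespace Pool.Agent.Helper54K9.AllSym

open Finset

theorem pt_ne (l : Fin 13) : ¬ (pt l 0 = 0 ∧ pt l 1 = 0 ∧ pt l 2 = 0) := by
  revert l; decide +kernel

theorem lf_zero (l : Fin 13) : lf l 0 = 0 := by simp [lf]

theorem lower {n : ℕ} (G : Matrix (Fin 3) (Fin n) (ZMod 3))
    (hli : LinearIndependent (ZMod 3) (fun i => G i)) (hP : AllSymbolPIR 7 G) : 14 ≤ n := by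
  classical
  by_contra hn
  have hn' : n ≤ 13 := by omega
  have hsp0 : ∀ l : Fin 13, ∃ j, lf l (G.col j) ≠ 0 := by
    intro l
    by_contra hcon
    push Not at hcon
    have hz : ∑ i, pt l i • G i = 0 := by
      ext j
      rw [Finset.sum_apply]
      have := hcon j
      unfold lf at this
      simp only [Fin.sum_univ_three, Pi.smul_apply, smul_eq_mul, Pi.zero_apply]
      exact this
    have h3 := Fintype.linearIndependent_iff.1 hli (pt l) hz
    exact pt_ne l ⟨h3 0, h3 1, h3 2⟩
  obtain ⟨j0, hj0⟩ := hsp0 0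
  set u : V := G.col j0 with hu
  have hu0 : u ≠ 0 := by
    intro h
    rw [h] at hj0
    exact hj0 (lf_zero 0)
  set g : Fin 13 → V := fun j =>
    if h : j.val < n then (if G.col ⟨j.val, h⟩ = 0 then u else G.col ⟨j.val, h⟩) else u with hg
  have hgi : ∀ i : Fin n, G.col i ≠ 0 → g (Fin.castLE hn' i) = G.col i := by
    intro i hi
    have h1 : (Fin.castLE hn' i).val < n := i.isLt
    rw [hg]
    simp only [h1, dif_pos]
    have : (⟨(Fin.castLE hn' i).val, h1⟩ : Fin n) = i := rfl
    rw [this, if_neg hi]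
  have hex : ∀ j, ∃ i : Fin n, g j = G.col i := by
    intro j
    by_cases h : j.val < n
    · by_cases h2 : G.col ⟨j.val, h⟩ = 0
      · exact ⟨j0, by rw [hg]; simp only [h, dif_pos]; rw [if_pos h2]⟩
      · exact ⟨⟨j.val, h⟩, by rw [hg]; simp only [h, dif_pos]; rw [if_neg h2]⟩
    · exact ⟨j0, by rw [hg]; simp only [h, dif_neg, not_false_eq_true]; rfl⟩
  have hne : ∀ j, g j ≠ 0 := by
    intro j
    by_cases h : j.val < n
    · by_cases h2 : G.col ⟨j.val, h⟩ = 0
      · rw [hg]; simp only [h, dif_pos]; rw [if_pos h2]; exact hu0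
      · rw [hg]; simp only [h, dif_pos]; rw [if_neg h2]; exact h2
    · rw [hg]; simp only [h, dif_neg, not_false_eq_true]; exact hu0
  have hsp : ∀ l : Fin 13, ∃ j, lf l (g j) ≠ 0 := by
    intro l
    obtain ⟨i, hi⟩ := hsp0 l
    have hi0 : G.col i ≠ 0 := by
      intro h; rw [h] at hi; exact hi (lf_zero l)
    exact ⟨Fin.castLE hn' i, by rw [hgi i hi0]; exact hi⟩
  have hPg : FamPIR 7 g := by
    intro j
    obtain ⟨i, hi⟩ := hex j
    obtain ⟨R, hR, hS⟩ := hP i
    refine ⟨fun a => (R a).map (Fin.castLEEmb hn'), ?_, ?_⟩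
    · intro a b hab
      exact (Finset.disjoint_map _).2 (hR a b hab)
    · intro a
      rw [hi]
      have hmem : G.col i ∈ Submodule.span (ZMod 3) ((fun j => G.col j) '' (R a : Set (Fin n))) :=
        hS a
      refine (Submodule.span_le.2 ?_) hmem
      rintro _ ⟨m, hm, rfl⟩
      by_cases h0 : G.col m = 0
      · simp only [h0]
        exact Submodule.zero_mem _
      · apply Submodule.subset_span
        refine ⟨Fin.castLE hn' m, ?_, hgi m h0⟩
        rw [Finset.coe_map]
        exact ⟨m, hm, rfl⟩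
  exact good_false (good_of_pir g hne hsp hPg)

end Pool.Agent.Helper54K9.AllSym
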