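import Mathlib

/-!
# A finite search on the thirteen points of the projective plane of order three

No weights `c 0, ..., c 12` of total thirteen on the thirteen points have all line sums at most six and
satisfy at every point of positive weight the pairing condition of `Pl`.
-/

set_option autoImplicit false
set_option linter.unusedVariables false
set_option maxRecDepth 10000

namespace Pool.Agent.Helper54K9.AllSym.Search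

/-- conjunction over the four values 0, 1, 2, 3 -/
def all4 (g : ℕ → Bool) : Bool := g 0 && (g 1 && (g 2 && g 3))

theorem all4_spec {g : ℕ → Bool} (h : all4 g = true) {x : ℕ} (hx : x ≤ 3) : g x = true := by
  unfold all4 at h
  simp only [Bool.and_eq_true] at h
  obtain ⟨h0, h1, h2, h3⟩ := h
  interval_cases x <;> assumption

/-- is one of the four weights equal to `v` -/
def has (v a b c d : ℕ) : Bool := Nat.beq a v || (Nat.beq b v || (Nat.beq c v || Nat.beq d v))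

/-- line condition: total at most six; if a weight is one, the total is odd and no weight is three -/
def okLine (a b c d : ℕ) : Bool :=
  Nat.ble (a + b + c + d) 6 &&
    (!(has 1 a b c d) || (Nat.beq ((a + b + c + d) % 2) 1 && !(has 3 a b c d)))

/-- the largest number of disjoint pairs of columns of different classes, classes of sizes `a`, `b`, `c` -/
def pl (a b c : ℕ) : ℕ := min ((a + b + c) / 2) (min (b + c) (min (a + c) (a + b)))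

/-- the pairing condition fails at a point of weight `w` -/
def viol (w p q r s : ℕ) : Bool := !(Nat.beq w 0) && Nat.blt (p + q + r + s + 2 * w) 8

/-- some point violates the pairing condition -/
def leaf (c0 c1 c2 c3 c4 c5 c6 c7 c8 c9 c10 c11 c12 : ℕ) : Bool :=
  viol c0 (pl c4 c5 c6) (pl c1 c2 c3) (pl c10 c11 c12) (pl c7 c8 c9) ||
  (viol c1 (pl c4 c7 c10) (pl c0 c2 c3) (pl c6 c9 c12) (pl c5 c8 c11) ||
  (viol c2 (pl c4 c8 c12) (pl c0 c1 c3) (pl c5 c9 c10) (pl c6 c7 c11) ||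
  (viol c3 (pl c4 c9 c11) (pl c0 c1 c2) (pl c6 c8 c10) (pl c5 c7 c12) ||
  (viol c4 (pl c1 c7 c10) (pl c0 c5 c6) (pl c3 c9 c11) (pl c2 c8 c12) ||
  (viol c5 (pl c0 c4 c6) (pl c1 c8 c11) (pl c2 c9 c10) (pl c3 c7 c12) ||
  (viol c6 (pl c0 c4 c5) (pl c1 c9 c12) (pl c3 c8 c10) (pl c2 c7 c11) ||
  (viol c7 (pl c1 c4 c10) (pl c0 c8 c9) (pl c2 c6 c11) (pl c3 c5 c12) ||
  (viol c8 (pl c2 c4 c12) (pl c1 c5 c11) (pl c3 c6 c10) (pl c0 c7 c9) ||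
  (viol c9 (pl c3 c4 c11) (pl c1 c6 c12) (pl c2 c5 c10) (pl c0 c7 c8) ||
  (viol c10 (pl c1 c4 c7) (pl c0 c11 c12) (pl c3 c6 c8) (pl c2 c5 c9) ||
  (viol c11 (pl c3 c4 c9) (pl c1 c5 c8) (pl c0 c10 c12) (pl c2 c6 c7) ||
  (viol c12 (pl c2 c4 c8) (pl c1 c6 c9) (pl c0 c10 c11) (pl c3 c5 c7)))))))))))))

def k12 (c0 c1 c2 c3 c4 c5 c6 c7 c8 c9 c10 c11 x : ℕ) : Bool :=
  Nat.beq (c0 + c1 + c2 + c3 + c4 + c5 + c6 + c7 + c8 + c9 + c10 + c11 + x) 13 &&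
      (okLine c2 c4 c8 x &&
      (okLine c1 c6 c9 x &&
      (okLine c0 c10 c11 x &&
      (okLine c3 c5 c7 x))))

def f12 (c0 c1 c2 c3 c4 c5 c6 c7 c8 c9 c10 c11 : ℕ) : Bool :=
  all4 fun x => !(k12 c0 c1 c2 c3 c4 c5 c6 c7 c8 c9 c10 c11 x) || leaf c0 c1 c2 c3 c4 c5 c6 c7 c8 c9 c10 c11 x

def k11 (c0 c1 c2 c3 c4 c5 c6 c7 c8 c9 c10 x : ℕ) : Bool :=
  Nat.ble (c0 + c1 + c2 + c3 + c4 + c5 + c6 + c7 + c8 + c9 + c10 + x) 13 &&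
      (Nat.ble 13 (c0 + c1 + c2 + c3 + c4 + c5 + c6 + c7 + c8 + c9 + c10 + x + 3) &&
      (okLine c3 c4 c9 x &&
      (okLine c1 c5 c8 x &&
      (Nat.ble (c0 + c10 + x) 6 &&
      (okLine c2 c6 c7 x)))))

def f11 (c0 c1 c2 c3 c4 c5 c6 c7 c8 c9 c10 : ℕ) : Bool :=
  all4 fun x => !(k11 c0 c1 c2 c3 c4 c5 c6 c7 c8 c9 c10 x) || f12 c0 c1 c2 c3 c4 c5 c6 c7 c8 c9 c10 x

def k10 (c0 c1 c2 c3 c4 c5 c6 c7 c8 c9 x : ℕ) : Bool :=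
  Nat.ble (c0 + c1 + c2 + c3 + c4 + c5 + c6 + c7 + c8 + c9 + x) 13 &&
      (Nat.ble 13 (c0 + c1 + c2 + c3 + c4 + c5 + c6 + c7 + c8 + c9 + x + 6) &&
      (okLine c1 c4 c7 x &&
      (okLine c3 c6 c8 x &&
      (okLine c2 c5 c9 x))))

def f10 (c0 c1 c2 c3 c4 c5 c6 c7 c8 c9 : ℕ) : Bool :=
  all4 fun x => !(k10 c0 c1 c2 c3 c4 c5 c6 c7 c8 c9 x) || f11 c0 c1 c2 c3 c4 c5 c6 c7 c8 c9 x

def k9 (c0 c1 c2 c3 c4 c5 c6 c7 c8 x : ℕ) : Bool :=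
  Nat.ble (c0 + c1 + c2 + c3 + c4 + c5 + c6 + c7 + c8 + x) 13 &&
      (Nat.ble 13 (c0 + c1 + c2 + c3 + c4 + c5 + c6 + c7 + c8 + x + 9) &&
      (Nat.ble (c3 + c4 + x) 6 &&
      (Nat.ble (c1 + c6 + x) 6 &&
      (Nat.ble (c2 + c5 + x) 6 &&
      (okLine c0 c7 c8 x)))))

def f9 (c0 c1 c2 c3 c4 c5 c6 c7 c8 : ℕ) : Bool :=
  all4 fun x => !(k9 c0 c1 c2 c3 c4 c5 c6 c7 c8 x) || f10 c0 c1 c2 c3 c4 c5 c6 c7 c8 x

def k8 (c0 c1 c2 c3 c4 c5 c6 c7 x : ℕ) : Bool :=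
  Nat.ble (c0 + c1 + c2 + c3 + c4 + c5 + c6 + c7 + x) 13 &&
      (Nat.ble 13 (c0 + c1 + c2 + c3 + c4 + c5 + c6 + c7 + x + 12) &&
      (Nat.ble (c2 + c4 + x) 6 &&
      (Nat.ble (c1 + c5 + x) 6 &&
      (Nat.ble (c3 + c6 + x) 6 &&
      (Nat.ble (c0 + c7 + x) 6)))))

def f8 (c0 c1 c2 c3 c4 c5 c6 c7 : ℕ) : Bool :=
  all4 fun x => !(k8 c0 c1 c2 c3 c4 c5 c6 c7 x) || f9 c0 c1 c2 c3 c4 c5 c6 c7 x

def k7 (c0 c1 c2 c3 c4 c5 c6 x : ℕ) : Bool :=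
  Nat.ble (c0 + c1 + c2 + c3 + c4 + c5 + c6 + x) 13 &&
      (Nat.ble 13 (c0 + c1 + c2 + c3 + c4 + c5 + c6 + x + 15) &&
      (Nat.ble (c1 + c4 + x) 6 &&
      (Nat.ble (c2 + c6 + x) 6 &&
      (Nat.ble (c3 + c5 + x) 6))))

def f7 (c0 c1 c2 c3 c4 c5 c6 : ℕ) : Bool :=
  all4 fun x => !(k7 c0 c1 c2 c3 c4 c5 c6 x) || f8 c0 c1 c2 c3 c4 c5 c6 x

def k6 (c0 c1 c2 c3 c4 c5 x : ℕ) : Bool :=
  Nat.ble (c0 + c1 + c2 + c3 + c4 + c5 + x) 13 &&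
      (Nat.ble 13 (c0 + c1 + c2 + c3 + c4 + c5 + x + 18) &&
      (okLine c0 c4 c5 x))

def f6 (c0 c1 c2 c3 c4 c5 : ℕ) : Bool :=
  all4 fun x => !(k6 c0 c1 c2 c3 c4 c5 x) || f7 c0 c1 c2 c3 c4 c5 x

def k5 (c0 c1 c2 c3 c4 x : ℕ) : Bool :=
  Nat.ble (c0 + c1 + c2 + c3 + c4 + x) 13 &&
      (Nat.ble 13 (c0 + c1 + c2 + c3 + c4 + x + 21) &&
      (Nat.ble (c0 + c4 + x) 6))

def f5 (c0 c1 c2 c3 c4 : ℕ) : Bool :=
  all4 fun x => !(k5 c0 c1 c2 c3 c4 x) || f6 c0 c1 c2 c3 c4 x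

def k4 (c0 c1 c2 c3 x : ℕ) : Bool :=
  Nat.ble (c0 + c1 + c2 + c3 + x) 13 &&
      (Nat.ble 13 (c0 + c1 + c2 + c3 + x + 24))

def f4 (c0 c1 c2 c3 : ℕ) : Bool :=
  all4 fun x => !(k4 c0 c1 c2 c3 x) || f5 c0 c1 c2 c3 x

def k3 (c0 c1 c2 x : ℕ) : Bool :=
  Nat.ble (c0 + c1 + c2 + x) 13 &&
      (Nat.ble 13 (c0 + c1 + c2 + x + 27) &&
      (okLine c0 c1 c2 x))

def f3 (c0 c1 c2 : ℕ) : Bool :=
  all4 fun x => !(k3 c0 c1 c2 x) || f4 c0 c1 c2 x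

def k2 (c0 c1 x : ℕ) : Bool :=
  Nat.ble (c0 + c1 + x) 13 &&
      (Nat.ble 13 (c0 + c1 + x + 30) &&
      (Nat.ble (c0 + c1 + x) 6))

def f2 (c0 c1 : ℕ) : Bool :=
  all4 fun x => !(k2 c0 c1 x) || f3 c0 c1 x

def k1 (c0 x : ℕ) : Bool :=
  Nat.ble (c0 + x) 13 &&
      (Nat.ble 13 (c0 + x + 33))

def f1 (c0 : ℕ) : Bool :=
  all4 fun x => !(k1 c0 x) || f2 c0 x

def k0 (x : ℕ) : Bool :=
  Nat.ble (x) 13 &&
      (Nat.ble 13 (x + 36))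

def f0 : Bool :=
  all4 fun x => !(k0 x) || f1 x

theorem f0_true : f0 = true := by decide +kernel

end Pool.Agent.Helper54K9.AllSym.Search
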