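import Pool.Agent.Helper54K9.AllSym.Defs

/-!
# Short ternary codes of dimension three: nine columns for `t = 5`, four columns for `t = 2`
-/

set_option autoImplicit false
set_option maxRecDepth 10000

namespace Pool.Agent.Helper54K9.AllSym

open Finset

theorem batch_pir {F : Type*} [Field F] {k n t : ℕ} {G : Matrix (Fin k) (Fin n) F}
    (h : AllSymbolBatch t G) : AllSymbolPIR t G := fun j => h fun _ => j

/-- set of the positions of the ones in the binary expansion of `m` -/
def bits (n m : ℕ) : Finset (Fin n) := univ.filter fun i => Nat.testBit m i.val = true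

theorem bits_disjoint {n m m' : ℕ} (h : m &&& m' = 0) : Disjoint (bits n m) (bits n m') := by
  rw [Finset.disjoint_left]
  intro i hi hi'
  unfold bits at hi hi'
  rw [Finset.mem_filter] at hi hi'
  have h1 : Nat.testBit (m &&& m') i.val = true := by
    rw [Nat.testBit_land, hi.2, hi'.2]; rfl
  rw [h, Nat.zero_testBit] at h1
  exact absurd h1 (by decide)

/-- search for pairwise disjoint members of the lists `sets v` -/
def solve (sets : ℕ → List ℕ) : List ℕ → ℕ → Bool
  | [], _ => true
  | v :: rs, used => (sets v).any fun m => Nat.beq (m &&& used) 0 && solve sets rs (used ||| m)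

theorem land_lor_zero {m a b : ℕ} (h : m &&& (a ||| b) = 0) : m &&& a = 0 ∧ m &&& b = 0 := by
  have h1 : (m &&& a) ||| (m &&& b) = 0 := by rw [← Nat.and_or_distrib_left]; exact h
  constructor
  · apply Nat.eq_of_testBit_eq
    intro i
    have h2 := congrArg (fun x => Nat.testBit x i) h1
    simp only [Nat.testBit_lor, Nat.zero_testBit, Bool.or_eq_false_iff] at h2
    rw [h2.1, Nat.zero_testBit]
  · apply Nat.eq_of_testBit_eq
    intro i
    have h2 := congrArg (fun x => Nat.testBit x i) h1
    simp only [Nat.testBit_lor, Nat.zero_testBit, Bool.or_eq_false_iff] at h2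
    rw [h2.2, Nat.zero_testBit]

theorem solve_cons {sets : ℕ → List ℕ} {v : ℕ} {rs : List ℕ} {used : ℕ}
    (h : solve sets (v :: rs) used = true) :
    ∃ m ∈ sets v, m &&& used = 0 ∧ solve sets rs (used ||| m) = true := by
  unfold solve at h
  rw [List.any_eq_true] at h
  obtain ⟨m, hm, h2⟩ := h
  rw [Bool.and_eq_true, Nat.beq_eq] at h2
  exact ⟨m, hm, h2.1, h2.2⟩

/-- solutions of the search, as a function on the positions of the list -/
theorem solve_spec {sets : ℕ → List ℕ} : ∀ (rs : List ℕ) (used : ℕ), solve sets rs used = true →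
    ∃ M : Fin rs.length → ℕ, (∀ a, M a ∈ sets (rs.get a)) ∧ (∀ a, M a &&& used = 0) ∧
      ∀ a b, a ≠ b → M a &&& M b = 0 := by
  intro rs
  induction rs with
  | nil => intro used _; exact ⟨fun a => 0, fun a => a.elim0, fun a => a.elim0, fun a => a.elim0⟩
  | cons v rs ih =>
    intro used h
    obtain ⟨m, hm, h1, h2⟩ := solve_cons h
    obtain ⟨M, hM1, hM2, hM3⟩ := ih _ h2
    refine ⟨Fin.cons m M, ?_, ?_, ?_⟩
    · intro a
      refine Fin.cases ?_ (fun i => ?_) a
      · exact hm
      · exact hM1 i
    · intro a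
      refine Fin.cases ?_ (fun i => ?_) a
      · exact h1
      · exact (land_lor_zero (hM2 i)).1
    · intro a b
      refine Fin.cases ?_ (fun i => ?_) a
      · refine Fin.cases ?_ (fun j => ?_) b
        · intro hab; exact absurd rfl hab
        · intro _
          have := (land_lor_zero (hM2 j)).2
          rw [Nat.land_comm] at this
          exact this
      · refine Fin.cases ?_ (fun j => ?_) b
        · intro _; exact (land_lor_zero (hM2 i)).2
        · intro hab
          exact hM3 i j (fun h => hab (by rw [h]))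

/-- it is enough to serve nondecreasing sequences of columns -/
theorem batch_of_monotone {F : Type*} [Field F] {k n t : ℕ} {G : Matrix (Fin k) (Fin n) F}
    (h : ∀ f : Fin t → Fin n, Monotone f → Serves G (fun a => G.col (f a))) :
    AllSymbolBatch t G := by
  intro f
  obtain ⟨R, hR, hS⟩ := h (f ∘ Tuple.sort f) (Tuple.monotone_sort f)
  refine ⟨fun a => R ((Tuple.sort f).symm a), ?_, ?_⟩
  · intro a b hab
    exact hR _ _ (fun h => hab ((Tuple.sort f).symm.injective h))
  · intro a
    have := hS ((Tuple.sort f).symm a)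
    simpa using this

/-- span membership by coefficients -/
theorem mem_span_of_coeff {F : Type*} [Field F] {k n : ℕ} (G : Matrix (Fin k) (Fin n) F)
    (R : Finset (Fin n)) (v : Fin k → F) (c : Fin n → F) (h0 : ∀ j, j ∉ R → c j = 0)
    (h : ∀ i, ∑ j, c j * G i j = v i) : IsRecoverySet G R v := by
  have hv : v = ∑ j ∈ R, c j • G.col j := by
    have h1 : ∑ j ∈ R, c j • G.col j = ∑ j, c j • G.col j := by
      apply Finset.sum_subset (Finset.subset_univ R)
      intro j _ hj
      rw [h0 j hj, zero_smul]
    rw [h1]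
    ext i
    rw [Finset.sum_apply, ← h i]
    rfl
  unfold IsRecoverySet
  rw [hv]
  apply Submodule.sum_mem
  intro j hj
  apply Submodule.smul_mem
  apply Submodule.subset_span
  exact ⟨j, hj, rfl⟩

/-- the matrix whose columns are the nine vectors `(1, x, y)` -/
def G9 : Matrix (Fin 3) (Fin 9) (ZMod 3) :=
  ![![1, 1, 1, 1, 1, 1, 1, 1, 1], ![0, 0, 0, 1, 1, 1, 2, 2, 2], ![0, 1, 2, 0, 1, 2, 0, 1, 2]]

/-- the matrix whose columns are the unit vectors and their sum -/
def G4 : Matrix (Fin 3) (Fin 4) (ZMod 3) :=
  ![![1, 0, 0, 1], ![0, 1, 0, 1], ![0, 0, 1, 1]]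

/-- seven copies of the unit matrix -/
def G21 : Matrix (Fin 3) (Fin 21) (ZMod 3) := fun i j => if j.val % 3 = i.val then 1 else 0

end Pool.Agent.Helper54K9.AllSym
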